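import Pool.Agent.Helper9.Kokoris.Defs

set_option autoImplicit false
set_option linter.unusedSectionVars false

namespace Pool.Agent.Helper9.Kokoris

universe u

section Anti

variable {F : Type u} [Field F] {A : Type u} [NonUnitalNonAssocRing A] [Module F A]
  [IsScalarTower F A A] [SMulCommClass F A A]

theorem IsProductOf.map {B B' : Type u} [Mul B] [Mul B'] (f : B → B')
    (hf : ∀ a b, f (a * b) = f a * f b) {n : ℕ} {b : B} (h : IsProductOf n b) :
    IsProductOf n (f b) := by
  induction h with
  | single b => exact IsProductOf.single _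
  | mul h1 h2 ih1 ih2 => rw [hf]; exact IsProductOf.mul ih1 ih2

theorem IsProductOf.pos {B : Type u} [Mul B] {n : ℕ} {b : B} (h : IsProductOf n b) : 1 ≤ n := by
  induction h with
  | single b => exact le_rfl
  | mul h1 h2 ih1 ih2 => omega

theorem IsProductOf.pred {B : Type u} [Mul B] {n : ℕ} {b : B} (h : IsProductOf n b)
    (hn : 2 ≤ n) : IsProductOf (n - 1) b := by
  induction h with
  | single b => omega
  | @mul m n a b h1 h2 ih1 ih2 =>
    have hm := h1.pos
    have hn' := h2.pos
    rcases Nat.lt_or_ge 1 m with h | h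
    · have := IsProductOf.mul (ih1 (by omega)) h2
      rwa [show m - 1 + n = m + n - 1 by omega] at this
    · rcases Nat.lt_or_ge 1 n with h' | h'
      · have := IsProductOf.mul h1 (ih2 (by omega))
        rwa [show m + (n - 1) = m + n - 1 by omega] at this
      · have : m + n - 1 = 1 := by omega
        rw [this]
        exact IsProductOf.single _

/-- The span in `A` of the products of `n` elements of the subalgebra generated by `s`. -/
def pow (F : Type u) [Field F] {A : Type u} [NonUnitalNonAssocRing A] [Module F A]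
    [IsScalarTower F A A] [SMulCommClass F A A] (s : Set A) (n : ℕ) : Submodule F A :=
  Submodule.span F {x | ∃ b : NonUnitalAlgebra.adjoin F s, IsProductOf n b ∧ x = b}

theorem pow_anti (s : Set A) {n : ℕ} (hn : 1 ≤ n) : pow F s (n + 1) ≤ pow F s n := by
  apply Submodule.span_mono
  rintro x ⟨b, hb, rfl⟩
  exact ⟨b, hb.pred (by omega), rfl⟩

theorem mul_left_pow (s : Set A) (c : A) (hc : c ∈ s) {n : ℕ} {x : A} (hx : x ∈ pow F s n) :
    c * x ∈ pow F s (n + 1) := by
  induction hx using Submodule.span_induction with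
  | mem x hx =>
    obtain ⟨b, hb, rfl⟩ := hx
    apply Submodule.subset_span
    refine ⟨⟨c, NonUnitalAlgebra.subset_adjoin F hc⟩ * b, ?_, rfl⟩
    have := IsProductOf.mul (IsProductOf.single
      (⟨c, NonUnitalAlgebra.subset_adjoin F hc⟩ : NonUnitalAlgebra.adjoin F s)) hb
    rwa [add_comm] at this
  | zero => rw [mul_zero]; exact Submodule.zero_mem _
  | add x y _ _ hx hy => rw [mul_add]; exact Submodule.add_mem _ hx hy
  | smul k x _ hx => rw [mul_smul_comm]; exact Submodule.smul_mem _ _ hx

theorem mul_right_pow (s : Set A) (c : A) (hc : c ∈ s) {n : ℕ} {x : A} (hx : x ∈ pow F s n) :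
    x * c ∈ pow F s (n + 1) := by
  induction hx using Submodule.span_induction with
  | mem x hx =>
    obtain ⟨b, hb, rfl⟩ := hx
    apply Submodule.subset_span
    refine ⟨b * ⟨c, NonUnitalAlgebra.subset_adjoin F hc⟩, ?_, rfl⟩
    exact IsProductOf.mul hb (IsProductOf.single
      (⟨c, NonUnitalAlgebra.subset_adjoin F hc⟩ : NonUnitalAlgebra.adjoin F s))
  | zero => rw [zero_mul]; exact Submodule.zero_mem _
  | add x y _ _ hx hy => rw [add_mul]; exact Submodule.add_mem _ hx hy
  | smul k x _ hx => rw [smul_mul_assoc]; exact Submodule.smul_mem _ _ hx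

/-- A simple algebra is not locally nilpotent. -/
theorem not_locallyNilpotent (hs : IsSimpleAlgebra F A) : ¬ IsLocallyNilpotent F A := by
  classical
  intro hloc
  obtain ⟨⟨c, a, hca⟩, hs2⟩ := hs
  let U : Submodule F A :=
    { carrier := {u | ∃ G : Finset A, ∀ G' : Finset A, G ⊆ G' → ∀ n : ℕ, 1 ≤ n →
        a ∈ pow F (G' : Set A) n → u ∈ pow F (G' : Set A) (n + 1)}
      add_mem' := by
        rintro x y ⟨G, hG⟩ ⟨G', hG'⟩
        refine ⟨G ∪ G', fun G'' h n hn ha => ?_⟩
        exact Submodule.add_mem _
          (hG G'' (Finset.union_subset_left h) n hn ha)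
          (hG' G'' (Finset.union_subset_right h) n hn ha)
      zero_mem' := ⟨∅, fun _ _ _ _ _ => Submodule.zero_mem _⟩
      smul_mem' := by
        rintro k x ⟨G, hG⟩
        exact ⟨G, fun G'' h n hn ha => Submodule.smul_mem _ _ (hG G'' h n hn ha)⟩ }
  have hU : ∀ b : A, ∀ u ∈ U, b * u ∈ U ∧ u * b ∈ U := by
    rintro b u ⟨G, hG⟩
    constructor
    · refine ⟨insert b G, fun G' h n hn ha => ?_⟩
      have hb : b ∈ (G' : Set A) := h (Finset.mem_insert_self b G)
      exact pow_anti _ (by omega)
        (mul_left_pow _ b hb (hG G' ((Finset.subset_insert b G).trans h) n hn ha))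
    · refine ⟨insert b G, fun G' h n hn ha => ?_⟩
      have hb : b ∈ (G' : Set A) := h (Finset.mem_insert_self b G)
      exact pow_anti _ (by omega)
        (mul_right_pow _ b hb (hG G' ((Finset.subset_insert b G).trans h) n hn ha))
  have hcaU : c * a ∈ U := by
    refine ⟨{c}, fun G' h n hn ha => ?_⟩
    exact mul_left_pow _ c (h (Finset.mem_singleton_self c)) ha
  rcases hs2 U hU with h | h
  · rw [h] at hcaU
    exact hca (by simpa using hcaU)
  · have haU : a ∈ U := by rw [h]; trivial
    obtain ⟨G, hG⟩ := haU
    have hG' := hG (insert a G) (Finset.subset_insert a G)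
    have hall : ∀ n : ℕ, 1 ≤ n → a ∈ pow F ((insert a G : Finset A) : Set A) n := by
      intro n hn
      induction n with
      | zero => omega
      | succ n ih =>
        rcases Nat.eq_zero_or_pos n with h0 | h0
        · subst h0
          apply Submodule.subset_span
          exact ⟨⟨a, NonUnitalAlgebra.subset_adjoin F (by simp)⟩, IsProductOf.single _, rfl⟩
        · exact hG' n h0 (ih h0)
    obtain ⟨N, hN, hprod⟩ := hloc (insert a G)
    have h0 : pow F ((insert a G : Finset A) : Set A) N = ⊥ := by
      rw [eq_bot_iff]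
      apply Submodule.span_le.mpr
      rintro x ⟨b, hb, rfl⟩
      rw [hprod b hb]
      simp
    have ha0 := hall N hN
    rw [h0, Submodule.mem_bot] at ha0
    apply hca
    rw [ha0, mul_zero]

end Anti

end Pool.Agent.Helper9.Kokoris
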