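import Pool.Agent.Helper9.Kokoris.Inf

set_option autoImplicit false
set_option linter.unusedSectionVars false

namespace Pool.Agent.Helper9.Kokoris

universe u

section Cent

variable (F : Type u) [Field F] (A : Type u) [NonUnitalNonAssocRing A] [Module F A]
  [IsScalarTower F A A] [SMulCommClass F A A]

/-- The centroid. -/
def cent : Subalgebra F (Module.End F A) where
  carrier := {T | ∀ a b : A, T (a * b) = T a * b ∧ T (a * b) = a * T b}
  mul_mem' := by
    intro S T hS hT a b
    simp only [Module.End.mul_apply]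
    exact ⟨by rw [(hT a b).1, (hS _ _).1], by rw [(hT a b).2, (hS _ _).2]⟩
  add_mem' := by
    intro S T hS hT a b
    simp only [LinearMap.add_apply]
    exact ⟨by rw [(hT a b).1, (hS a b).1, add_mul], by rw [(hT a b).2, (hS a b).2, mul_add]⟩
  algebraMap_mem' := by
    intro r a b
    simp only [Module.algebraMap_end_apply]
    exact ⟨(smul_mul_assoc r a b).symm, (mul_smul_comm r a b).symm⟩

variable {F A}

theorem cent_ker_range (hs : IsSimpleAlgebra F A) {T : Module.End F A} (hT : T ∈ cent F A)
    (h0 : T ≠ 0) : Function.Bijective T := by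
  constructor
  · rw [← LinearMap.ker_eq_bot]
    rcases hs.2 (LinearMap.ker T) (by
      intro a b hb
      rw [LinearMap.mem_ker] at hb
      exact ⟨by rw [LinearMap.mem_ker, (hT a b).2, hb, mul_zero],
        by rw [LinearMap.mem_ker, (hT b a).1, hb, zero_mul]⟩) with h | h
    · exact h
    · exact absurd (LinearMap.ker_eq_top.mp h) h0
  · rw [← LinearMap.range_eq_top]
    rcases hs.2 (LinearMap.range T) (by
      rintro a _ ⟨b, rfl⟩
      exact ⟨⟨a * b, (hT a b).2⟩, ⟨b * a, (hT b a).1⟩⟩) with h | h
    · exact absurd (LinearMap.range_eq_bot.mp h) h0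
    · exact h

theorem cent_comm (hs : IsSimpleAlgebra F A) {S T : Module.End F A} (hS : S ∈ cent F A)
    (hT : T ∈ cent F A) : S * T = T * S := by
  by_contra hne
  have hW : S * T - T * S ∈ cent F A := Subalgebra.sub_mem _ (Subalgebra.mul_mem _ hS hT)
    (Subalgebra.mul_mem _ hT hS)
  have hb := cent_ker_range hs hW (sub_ne_zero.mpr hne)
  obtain ⟨a, b, hab⟩ := hs.1
  apply hab
  apply hb.1
  rw [map_zero]
  simp only [LinearMap.sub_apply, Module.End.mul_apply]
  rw [(hT a b).2, (hS a (T b)).1, (hS a b).1, (hT (S a) b).2, sub_self]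

theorem cent_isField (hs : IsSimpleAlgebra F A) : IsField (cent F A) where
  exists_pair_ne := by
    refine ⟨0, 1, ?_⟩
    intro h
    obtain ⟨a, b, hab⟩ := hs.1
    have h1 : (0 : Module.End F A) = 1 := congrArg Subtype.val h
    apply hab
    have := LinearMap.congr_fun h1 (a * b)
    simpa using this.symm
  mul_comm := fun x y => Subtype.ext (cent_comm hs x.2 y.2)
  mul_inv_cancel := by
    intro T hT
    have hT' : (T : Module.End F A) ≠ 0 := fun h => hT (Subtype.ext h)
    have hb := cent_ker_range hs T.2 hT'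
    let e := LinearEquiv.ofBijective (T : Module.End F A) hb
    have he : ∀ x, (T : Module.End F A) (e.symm x) = x := fun x => e.apply_symm_apply x
    have hmem : (e.symm : A →ₗ[F] A) ∈ cent F A := by
      intro a b
      constructor
      · apply hb.1
        change (T : Module.End F A) (e.symm (a * b)) = (T : Module.End F A) (e.symm a * b)
        rw [he, (T.2 (e.symm a) b).1, he]
      · apply hb.1
        change (T : Module.End F A) (e.symm (a * b)) = (T : Module.End F A) (a * e.symm b)
        rw [he, (T.2 a (e.symm b)).2, he]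
    refine ⟨⟨(e.symm : A →ₗ[F] A), hmem⟩, ?_⟩
    apply Subtype.ext
    ext x
    exact he x

theorem Dop_Lop_pow [hK : KAlg A] (a b : A) (n : ℕ) :
    Dop F b * Lop F a ^ n = Lop F a ^ n * Dop F b + n • (Lop F a ^ (n - 1) * Lop F (br b a)) := by
  induction n with
  | zero => simp
  | succ n ih =>
    have hc : Commute (Lop F a) (Lop F (br b a)) := Lop_comm F a (br b a)
    have h1 : Dop F b * Lop F a = Lop F a * Dop F b + Lop F (br b a) := by
      rw [← Dop_Lop]; abel
    rw [pow_succ', ← mul_assoc, h1, add_mul, mul_assoc, ih, mul_add, ← mul_assoc, ← pow_succ',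
      Nat.add_sub_cancel, add_assoc]
    congr 1
    rw [mul_smul_comm, ← mul_assoc, ← pow_succ', succ_nsmul]
    rcases Nat.eq_zero_or_pos n with h0 | h0
    · subst h0; simp
    · rw [Nat.sub_add_cancel h0, (hc.pow_left n).eq]

theorem pow_mem_cent [hK : KAlg A] (p : ℕ) [CharP F p] (a : A) :
    Lop F a ^ p ∈ cent F A := by
  have hD : ∀ b, Dop F b * Lop F a ^ p = Lop F a ^ p * Dop F b := by
    intro b
    rw [Dop_Lop_pow]
    have : p • (Lop F a ^ (p - 1) * Lop F (br b a)) = 0 := by
      rw [← Nat.cast_smul_eq_nsmul F, CharP.cast_eq_zero, zero_smul]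
    rw [this, add_zero]
  have hL : ∀ b, Lop F b * Lop F a ^ p = Lop F a ^ p * Lop F b := by
    intro b
    have : Commute (Lop F b) (Lop F a) := Lop_comm F b a
    exact (this.pow_right p).eq
  have hL' : ∀ b c, (Lop F a ^ p) (circ b c) = circ b ((Lop F a ^ p) c) := by
    intro b c
    have := LinearMap.congr_fun (hL b) c
    exact this.symm
  have hD' : ∀ b c, (Lop F a ^ p) (br b c) = br b ((Lop F a ^ p) c) := by
    intro b c
    have := LinearMap.congr_fun (hD b) c
    exact this.symm
  have h2 : ∀ b c : A, (Lop F a ^ p) (b * c) = b * (Lop F a ^ p) c := by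
    intro b c
    rw [← sub_eq_zero]
    apply hK.tf
    have e1 : (2 : ℕ) • ((Lop F a ^ p) (b * c) - b * (Lop F a ^ p) c)
        = (Lop F a ^ p) ((2 : ℕ) • (b * c)) - (2 : ℕ) • (b * (Lop F a ^ p) c) := by
      rw [smul_sub, map_nsmul]
    rw [e1, two_mul_eq, two_mul_eq, map_add, hL', hD', sub_self]
  have h3 : ∀ b c : A, (Lop F a ^ p) (b * c) = (Lop F a ^ p) b * c := by
    intro b c
    rw [← sub_eq_zero]
    apply hK.tf
    have e1 : (2 : ℕ) • ((Lop F a ^ p) (b * c) - (Lop F a ^ p) b * c)
        = (Lop F a ^ p) ((2 : ℕ) • (b * c)) - (2 : ℕ) • ((Lop F a ^ p) b * c) := by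
      rw [smul_sub, map_nsmul]
    rw [e1, two_mul_eq, two_mul_eq, map_add, circ_comm b c, br_skew b c, map_neg, hL', hD',
      circ_comm c, br_skew c, neg_neg, sub_self]
  exact fun b c => ⟨h3 b c, h2 b c⟩

end Cent

end Pool.Agent.Helper9.Kokoris
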