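import Pool.Agent.Helper9.Kokoris.Defs

set_option autoImplicit false
set_option linter.unusedSectionVars false

namespace Pool.Agent.Helper9.Kokoris

universe u

section Closure

variable {F : Type u} [Field F] {I : Set (FreeNonUnitalNonAssocAlgebra F ℕ)}
variable {A : Type u} [NonUnitalNonAssocRing A] [Module F A] [IsScalarTower F A A]
  [SMulCommClass F A A]
variable {B : Type u} [NonUnitalNonAssocRing B] [Module F B] [IsScalarTower F B B]
  [SMulCommClass F B B]

theorem InVariety.of_injective (hA : InVariety F I A) (ι : B →ₙₐ[F] A)
    (hι : Function.Injective ι) : InVariety F I B := by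
  intro f hf φ
  apply hι
  rw [map_zero]
  exact hA f hf (ι.comp φ)

theorem InVariety.of_surjective (hA : InVariety F I A) (π : A →ₙₐ[F] B)
    (hπ : Function.Surjective π) : InVariety F I B := by
  intro f hf φ
  choose g hg using fun i : ℕ => hπ (φ (FreeNonUnitalNonAssocAlgebra.of F i))
  have h : π.comp (FreeNonUnitalNonAssocAlgebra.lift F g) = φ := by
    apply FreeNonUnitalNonAssocAlgebra.hom_ext
    intro i
    rw [NonUnitalAlgHom.comp_apply, FreeNonUnitalNonAssocAlgebra.lift_of_apply, hg]
  rw [← h, NonUnitalAlgHom.comp_apply, hA f hf, map_zero]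

/-- Evaluation at a point. -/
def piEval (ι : Type u) (i : ι) : (ι → A) →ₙₐ[F] A where
  toFun x := x i
  map_smul' _ _ := rfl
  map_zero' := rfl
  map_add' _ _ := rfl
  map_mul' _ _ := rfl

theorem InVariety.pi (hA : InVariety F I A) (ι : Type u) : InVariety F I (ι → A) := by
  intro f hf φ
  funext i
  exact hA f hf ((piEval ι i).comp φ)

end Closure

section ScalarExtension

open TensorProduct

variable {F : Type u} [Field F] {I : Set (FreeNonUnitalNonAssocAlgebra F ℕ)}
variable {C : Type u} [Field C] [Algebra F C]
variable {A : Type u} [NonUnitalNonAssocRing A] [Module F A] [IsScalarTower F A A]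
  [SMulCommClass F A A] [Module C A] [IsScalarTower C A A] [SMulCommClass C A A]
  [IsScalarTower F C A]
variable (K : Type u) [Field K] [Algebra C K] [Algebra F K] [IsScalarTower F C K]

/-- Polynomials with coefficients in `A` as functions. -/
noncomputable def evLin : (MvPolynomial K C) ⊗[C] A →ₗ[C] ((K → C) → A) :=
  TensorProduct.lift (LinearMap.mk₂ C (fun (P : MvPolynomial K C) (a : A) (p : K → C) =>
    (MvPolynomial.eval p P) • a)
    (by intro P Q a; funext p; simp [add_smul])
    (by intro c P a; funext p; simp [mul_smul])
    (by intro P a b; funext p; simp)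
    (by intro c P a; funext p; exact smul_comm _ _ _))

@[simp]
theorem evLin_tmul (P : MvPolynomial K C) (a : A) (p : K → C) :
    evLin K (P ⊗ₜ[C] a) p = (MvPolynomial.eval p P) • a := by
  simp [evLin]

theorem evLin_mul (x y : (MvPolynomial K C) ⊗[C] A) :
    evLin K (x * y) = evLin K x * evLin K y := by
  induction x using TensorProduct.induction_on with
  | zero => simp
  | add x₁ x₂ h₁ h₂ => rw [add_mul, map_add, h₁, h₂, map_add, add_mul]
  | tmul P a =>
    induction y using TensorProduct.induction_on with
    | zero => simp
    | add y₁ y₂ h₁ h₂ => rw [mul_add, map_add, h₁, h₂, map_add, mul_add]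
    | tmul Q b =>
      funext p
      rw [Algebra.TensorProduct.tmul_mul_tmul, Pi.mul_apply, evLin_tmul, evLin_tmul, evLin_tmul,
        map_mul, smul_mul_smul_comm]

theorem evLin_injective [Infinite C] : Function.Injective (evLin (C := C) (A := A) K) := by
  rw [injective_iff_map_eq_zero]
  intro z hz
  let b := Module.Free.chooseBasis C A
  apply (TensorProduct.equivFinsuppOfBasisRight (M := MvPolynomial K C) b).injective
  rw [map_zero]
  ext1 i
  have key : ∀ (p : K → C) (z : (MvPolynomial K C) ⊗[C] A),
      MvPolynomial.eval p ((TensorProduct.equivFinsuppOfBasisRight (M := MvPolynomial K C) b) z i)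
        = b.repr (evLin K z p) i := by
    intro p z
    induction z using TensorProduct.induction_on with
    | zero => simp
    | add x y hx hy => simp [hx, hy]
    | tmul P a =>
      rw [TensorProduct.equivFinsuppOfBasisRight_apply_tmul_apply, evLin_tmul]
      simp [mul_comm]
  apply MvPolynomial.funext
  intro p
  rw [key, hz]
  simp

/-- `evLin` as a homomorphism of `F`-algebras. -/
noncomputable def evHom : (MvPolynomial K C) ⊗[C] A →ₙₐ[F] ((K → C) → A) where
  toFun := evLin K
  map_smul' c x := by
    have := map_smul (evLin (C := C) (A := A) K) (algebraMap F C c) x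
    simpa only [algebraMap_smul, MonoidHom.id_apply] using this
  map_zero' := map_zero _
  map_add' := map_add _
  map_mul' := evLin_mul K

/-- Specialisation of the variables. -/
noncomputable def spLin : (MvPolynomial K C) ⊗[C] A →ₗ[C] K ⊗[C] A :=
  LinearMap.rTensor A (MvPolynomial.aeval (id : K → K)).toLinearMap

theorem spLin_tmul (P : MvPolynomial K C) (a : A) :
    spLin K (P ⊗ₜ[C] a) = (MvPolynomial.aeval (id : K → K) P) ⊗ₜ[C] a := by
  simp [spLin]

theorem spLin_mul (x y : (MvPolynomial K C) ⊗[C] A) :
    spLin K (x * y) = spLin K x * spLin K y := by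
  induction x using TensorProduct.induction_on with
  | zero => simp
  | add x₁ x₂ h₁ h₂ => rw [add_mul, map_add, h₁, h₂, map_add, add_mul]
  | tmul P a =>
    induction y using TensorProduct.induction_on with
    | zero => simp
    | add y₁ y₂ h₁ h₂ => rw [mul_add, map_add, h₁, h₂, map_add, mul_add]
    | tmul Q b =>
      rw [Algebra.TensorProduct.tmul_mul_tmul, spLin_tmul, spLin_tmul, spLin_tmul,
        Algebra.TensorProduct.tmul_mul_tmul, map_mul]

theorem spLin_surjective : Function.Surjective (spLin (C := C) (A := A) K) := by
  apply LinearMap.rTensor_surjective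
  intro k
  exact ⟨MvPolynomial.X k, by simp⟩

/-- `spLin` as a homomorphism of `F`-algebras. -/
noncomputable def spHom : (MvPolynomial K C) ⊗[C] A →ₙₐ[F] K ⊗[C] A where
  toFun := spLin K
  map_smul' c x := by
    have := map_smul (spLin (C := C) (A := A) K) (algebraMap F C c) x
    simpa only [algebraMap_smul, MonoidHom.id_apply] using this
  map_zero' := map_zero _
  map_add' := map_add _
  map_mul' := spLin_mul K

/-- Extension of scalars from an infinite field stays in the variety. -/
theorem InVariety.tensor [Infinite C] (hA : InVariety F I A) : InVariety F I (K ⊗[C] A) :=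
  ((hA.pi (K → C)).of_injective (evHom (F := F) (C := C) (A := A) K)
    (evLin_injective K)).of_surjective (spHom K) (spLin_surjective K)

end ScalarExtension

end Pool.Agent.Helper9.Kokoris
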