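import Mathlib

set_option autoImplicit false
set_option linter.unusedSectionVars false

namespace Pool.Agent.Helper9.Kokoris

universe u

section NilLemma

variable {R M ι : Type u} [CommRing R] [AddCommGroup M] [Module R M]

/-- The ideal generated by `I` and its derivatives. -/
def dI (dR : ι → R →+ R) (S : Set ι) (I : Ideal R) : Ideal R :=
  I ⊔ Ideal.span (⋃ c ∈ S, dR c '' (I : Set R))

/-- The submodule generated by `W` and its derivatives. -/
def dW (dM : ι → M →+ M) (S : Set ι) (W : Submodule R M) : Submodule R M :=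
  W ⊔ Submodule.span R (⋃ c ∈ S, dM c '' (W : Set M))

variable (dR : ι → R →+ R) (dM : ι → M →+ M)

theorem le_dI (S : Set ι) (I : Ideal R) : I ≤ dI dR S I := le_sup_left

theorem le_dW (S : Set ι) (W : Submodule R M) : W ≤ dW dM S W := le_sup_left

theorem dR_mem_dI {S : Set ι} {I : Ideal R} {c : ι} (hc : c ∈ S) {r : R} (hr : r ∈ I) :
    dR c r ∈ dI dR S I := by
  apply Ideal.mem_sup_right
  apply Ideal.subset_span
  simp only [Set.mem_iUnion, Set.mem_image, SetLike.mem_coe]
  exact ⟨c, hc, r, hr, rfl⟩

theorem dM_mem_dW {S : Set ι} {W : Submodule R M} {c : ι} (hc : c ∈ S) {m : M} (hm : m ∈ W) :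
    dM c m ∈ dW dM S W := by
  apply Submodule.mem_sup_right
  apply Submodule.subset_span
  simp only [Set.mem_iUnion, Set.mem_image, SetLike.mem_coe]
  exact ⟨c, hc, m, hm, rfl⟩

theorem dI_le {S : Set ι} {I X : Ideal R} (h1 : I ≤ X) (h2 : ∀ c ∈ S, ∀ r ∈ I, dR c r ∈ X) :
    dI dR S I ≤ X := by
  refine sup_le h1 (Ideal.span_le.mpr ?_)
  intro y hy
  simp only [Set.mem_iUnion, Set.mem_image, SetLike.mem_coe] at hy
  obtain ⟨c, hc, r, hr, rfl⟩ := hy
  exact h2 c hc r hr

theorem dW_le {S : Set ι} {W X : Submodule R M} (h1 : W ≤ X)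
    (h2 : ∀ c ∈ S, ∀ m ∈ W, dM c m ∈ X) : dW dM S W ≤ X := by
  refine sup_le h1 (Submodule.span_le.mpr ?_)
  intro y hy
  simp only [Set.mem_iUnion, Set.mem_image, SetLike.mem_coe] at hy
  obtain ⟨c, hc, r, hr, rfl⟩ := hy
  exact h2 c hc r hr

theorem dI_mono {S S' : Set ι} (hS : S ⊆ S') {I I' : Ideal R} (h : I ≤ I') :
    dI dR S I ≤ dI dR S' I' :=
  dI_le dR (h.trans (le_dI dR S' I')) (fun _ hc _ hr => dR_mem_dI dR (hS hc) (h hr))

theorem dW_mono {S S' : Set ι} (hS : S ⊆ S') {W W' : Submodule R M} (h : W ≤ W') :
    dW dM S W ≤ dW dM S' W' :=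
  dW_le dM (h.trans (le_dW dM S' W')) (fun _ hc _ hr => dM_mem_dW dM (hS hc) (h hr))

theorem dI_fg (hleib : ∀ c r s, dR c (r * s) = dR c r * s + r * dR c s) {S : Set ι}
    (hS : S.Finite) {I : Ideal R} (hI : I.FG) : (dI dR S I).FG := by
  obtain ⟨G, hG⟩ := hI
  have : dI dR S I = Ideal.span ((G : Set R) ∪ ⋃ c ∈ S, dR c '' (G : Set R)) := by
    apply le_antisymm
    · refine dI_le dR ?_ ?_
      · rw [← hG]
        exact Ideal.span_mono Set.subset_union_left
      · intro c hc r hr
        rw [← hG] at hr
        have hr' : r ∈ Submodule.span R (G : Set R) := hr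
        induction hr' using Submodule.span_induction with
        | mem x hx =>
          apply Ideal.subset_span
          right
          simp only [Set.mem_iUnion, Set.mem_image]
          exact ⟨c, hc, x, hx, rfl⟩
        | zero => rw [map_zero]; exact Ideal.zero_mem _
        | add x y hx' hy' hx hy =>
          rw [map_add]
          exact Ideal.add_mem _ (hx (by exact hx')) (hy (by exact hy'))
        | smul t x hx' hx =>
          rw [smul_eq_mul, hleib]
          refine Ideal.add_mem _ ?_ ?_
          · apply Ideal.mul_mem_left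
            exact Ideal.span_mono Set.subset_union_left hx'
          · apply Ideal.mul_mem_left
            exact hx (by exact hx')
    · apply Ideal.span_le.mpr
      rintro y (hy | hy)
      · exact le_dI dR S I (hG ▸ Ideal.subset_span hy)
      · simp only [Set.mem_iUnion, Set.mem_image] at hy
        obtain ⟨c, hc, r, hr, rfl⟩ := hy
        exact dR_mem_dI dR hc (hG ▸ Ideal.subset_span hr)
  rw [this]
  refine Submodule.fg_span ?_
  exact (G.finite_toSet).union (hS.biUnion fun c _ => (G.finite_toSet).image _)

theorem dW_fg (hleib : ∀ c (r : R) (m : M), dM c (r • m) = dR c r • m + r • dM c m) {S : Set ι}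
    (hS : S.Finite) {W : Submodule R M} (hW : W.FG) : (dW dM S W).FG := by
  obtain ⟨G, hG⟩ := hW
  have : dW dM S W = Submodule.span R ((G : Set M) ∪ ⋃ c ∈ S, dM c '' (G : Set M)) := by
    apply le_antisymm
    · refine dW_le dM ?_ ?_
      · rw [← hG]
        exact Submodule.span_mono Set.subset_union_left
      · intro c hc r hr
        rw [← hG] at hr
        induction hr using Submodule.span_induction with
        | mem x hx =>
          apply Submodule.subset_span
          right
          simp only [Set.mem_iUnion, Set.mem_image]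
          exact ⟨c, hc, x, hx, rfl⟩
        | zero => rw [map_zero]; exact Submodule.zero_mem _
        | add x y hx' hy' hx hy =>
          rw [map_add]
          exact Submodule.add_mem _ hx hy
        | smul t x hx' hx =>
          rw [hleib]
          refine Submodule.add_mem _ ?_ ?_
          · apply Submodule.smul_mem
            exact Submodule.span_mono Set.subset_union_left hx'
          · exact Submodule.smul_mem _ _ hx
    · apply Submodule.span_le.mpr
      rintro y (hy | hy)
      · exact le_dW dM S W (hG ▸ Submodule.subset_span hy)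
      · simp only [Set.mem_iUnion, Set.mem_image] at hy
        obtain ⟨c, hc, r, hr, rfl⟩ := hy
        exact dM_mem_dW dM hc (hG ▸ Submodule.subset_span hr)
  rw [this]
  refine Submodule.fg_span ?_
  exact (G.finite_toSet).union (hS.biUnion fun c _ => (G.finite_toSet).image _)

theorem dI_iter_mono {S S' : Set ι} (hS : S ⊆ S') {I I' : Ideal R} (h : I ≤ I') {m n : ℕ}
    (hmn : m ≤ n) : (dI dR S)^[m] I ≤ (dI dR S')^[n] I' := by
  induction n generalizing m with
  | zero =>
    obtain rfl : m = 0 := by omega
    exact h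
  | succ n ih =>
    rcases Nat.eq_zero_or_pos m with h0 | h0
    · subst h0
      rw [Function.iterate_succ_apply']
      exact (ih (Nat.zero_le n)).trans (le_dI dR S' _)
    · obtain ⟨m, rfl⟩ := Nat.exists_eq_succ_of_ne_zero h0.ne'
      rw [Function.iterate_succ_apply', Function.iterate_succ_apply']
      exact dI_mono dR hS (ih (by omega))

theorem dW_iter_mono {S S' : Set ι} (hS : S ⊆ S') {I I' : Submodule R M} (h : I ≤ I') {m n : ℕ}
    (hmn : m ≤ n) : (dW dM S)^[m] I ≤ (dW dM S')^[n] I' := by
  induction n generalizing m with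
  | zero =>
    obtain rfl : m = 0 := by omega
    exact h
  | succ n ih =>
    rcases Nat.eq_zero_or_pos m with h0 | h0
    · subst h0
      rw [Function.iterate_succ_apply']
      exact (ih (Nat.zero_le n)).trans (le_dW dM S' _)
    · obtain ⟨m, rfl⟩ := Nat.exists_eq_succ_of_ne_zero h0.ne'
      rw [Function.iterate_succ_apply', Function.iterate_succ_apply']
      exact dW_mono dM hS (ih (by omega))

/-- If `a` lies in `J₀` times the module generated by finitely many derivatives of `a`, with `J₀`
a finitely generated ideal inside a differential nil ideal, then `a = 0`. -/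
theorem nil_lemma (hR : ∀ c r s, dR c (r * s) = dR c r * s + r * dR c s)
    (hM : ∀ c (r : R) (m : M), dM c (r • m) = dR c r • m + r • dM c m)
    (J : Ideal R) (hJ : J ≤ nilradical R) (hJd : ∀ c, ∀ r ∈ J, dR c r ∈ J)
    {S : Set ι} (hS : S.Finite) {J0 : Ideal R} (hJ0 : J0.FG) (hJ0J : J0 ≤ J) (d : ℕ) (a : M)
    (ha : a ∈ J0 • (dW dM S)^[d] (Submodule.span R {a})) : a = 0 := by
  set Ji : ℕ → Ideal R := fun i => (dI dR S)^[i] J0 with hJi
  set Wl : ℕ → Submodule R M := fun l => (dW dM S)^[l] (Submodule.span R {a}) with hWl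
  have hJs : ∀ i, Ji (i + 1) = dI dR S (Ji i) := fun i => by
    simp only [hJi, Function.iterate_succ_apply']
  have hWs : ∀ i, Wl (i + 1) = dW dM S (Wl i) := fun i => by
    simp only [hWl, Function.iterate_succ_apply']
  have hJm : ∀ {i j}, i ≤ j → Ji i ≤ Ji j := fun h => dI_iter_mono dR le_rfl le_rfl h
  have hWm : ∀ {i j}, i ≤ j → Wl i ≤ Wl j := fun h => dW_iter_mono dM le_rfl le_rfl h
  have hJfg : ∀ i, (Ji i).FG := by
    intro i
    induction i with
    | zero => exact hJ0
    | succ i ih => rw [hJs]; exact dI_fg dR hR hS ih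
  have hWfg : ∀ i, (Wl i).FG := by
    intro i
    induction i with
    | zero => exact Submodule.fg_span (Set.finite_singleton a)
    | succ i ih => rw [hWs]; exact dW_fg dR dM hM hS ih
  have hJJ : ∀ i, Ji i ≤ J := by
    intro i
    induction i with
    | zero => exact hJ0J
    | succ i ih => rw [hJs]; exact dI_le dR ih (fun c _ r hr => hJd c r (ih hr))
  have hdJ : ∀ i, ∀ c ∈ S, ∀ r ∈ Ji i, dR c r ∈ Ji (i + 1) := by
    intro i c hc r hr
    rw [hJs]
    exact dR_mem_dI dR hc hr
  have hdW : ∀ i, ∀ c ∈ S, ∀ r ∈ Wl i, dM c r ∈ Wl (i + 1) := by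
    intro i c hc r hr
    rw [hWs]
    exact dM_mem_dW dM hc hr
  have hW0 : Wl 0 ≤ Ji 0 • Wl d := by
    change Submodule.span R {a} ≤ _
    rw [Submodule.span_singleton_le_iff_mem]
    exact ha
  have claim : ∀ l : ℕ, ∀ X : Submodule R M,
      (∀ i j, i + j = d + l → i ≤ l → Ji i • Wl j ≤ X) → Wl l ≤ X := by
    intro l
    induction l with
    | zero =>
      intro X hX
      exact hW0.trans (hX 0 d (by omega) le_rfl)
    | succ l ih =>
      intro X hX
      let X' : Submodule R M :=
        { carrier := {m | m ∈ X ∧ ∀ c ∈ S, dM c m ∈ X}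
          add_mem' := by
            rintro x y ⟨hx, hx'⟩ ⟨hy, hy'⟩
            refine ⟨X.add_mem hx hy, fun c hc => ?_⟩
            rw [map_add]
            exact X.add_mem (hx' c hc) (hy' c hc)
          zero_mem' := ⟨X.zero_mem, fun c _ => by rw [map_zero]; exact X.zero_mem⟩
          smul_mem' := by
            rintro r x ⟨hx, hx'⟩
            refine ⟨X.smul_mem r hx, fun c hc => ?_⟩
            rw [hM]
            exact X.add_mem (X.smul_mem _ hx) (X.smul_mem _ (hx' c hc)) }
      have h1 : Wl l ≤ X' := by
        apply ih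
        intro i j hij hi
        rw [Submodule.smul_le]
        intro r hr w hw
        refine ⟨?_, ?_⟩
        · exact hX (i + 1) j (by omega) (by omega) (Submodule.smul_mem_smul (hJm (by omega) hr) hw)
        · intro c hc
          rw [hM]
          refine X.add_mem ?_ ?_
          · exact hX (i + 1) j (by omega) (by omega) (Submodule.smul_mem_smul (hdJ i c hc r hr) hw)
          · exact hX i (j + 1) (by omega) (by omega) (Submodule.smul_mem_smul hr (hdW j c hc w hw))
      rw [hWs]
      exact dW_le dM (fun m hm => (h1 hm).1) (fun c hc m hm => (h1 hm).2 c hc)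
  have hstep : ∀ l, Wl l ≤ Ji d • Wl (d + l) := by
    intro l
    apply Submodule.le_of_le_smul_of_le_jacobson_bot (I := Ji l) (hWfg l)
    · refine (hJJ l).trans (hJ.trans ?_)
      rw [Ideal.jacobson_bot]
      exact nilradical_le_jacobson R
    · apply claim l
      intro i j hij hi
      rcases le_total i d with h | h
      · exact le_sup_of_le_left (Submodule.smul_mono (hJm h) (hWm (by omega)))
      · exact le_sup_of_le_right (Submodule.smul_mono (hJm hi) (hWm (by omega)))
  have hpow : ∀ s : ℕ, Wl 0 ≤ (Ji d) ^ s • Wl (s * d) := by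
    intro s
    induction s with
    | zero => simp
    | succ s ih =>
      refine ih.trans ?_
      rw [pow_succ, Submodule.mul_smul]
      refine Submodule.smul_mono le_rfl ?_
      refine (hstep (s * d)).trans ?_
      rw [show d + s * d = (s + 1) * d by ring]
  obtain ⟨s, hs⟩ := (Ideal.FG.isNilpotent_iff_le_nilradical (hJfg d)).mpr ((hJJ d).trans hJ)
  have h0 : Wl 0 ≤ ⊥ := by
    refine (hpow s).trans ?_
    rw [hs]
    simp
  have h1 : a ∈ Wl 0 := Submodule.mem_span_singleton_self a
  simpa using h0 h1

end NilLemma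

end Pool.Agent.Helper9.Kokoris
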