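import Pool.Agent.Helper9.Kokoris.Point
import Pool.Agent.Helper9.Kokoris.Nil

set_option autoImplicit false
set_option linter.unusedSectionVars false

namespace Pool.Agent.Helper9.Kokoris

open scoped IsMulCommutative

universe u

/-- Kokoris algebras without 2-torsion. -/
class KAlg (A : Type u) [NonUnitalNonAssocRing A] : Prop where
  kok : IsKokoris A
  tf : ∀ a : A, (2 : ℕ) • a = 0 → a = 0

section Ops

variable (F : Type u) [Field F] {A : Type u} [NonUnitalNonAssocRing A] [Module F A]
  [IsScalarTower F A A] [SMulCommClass F A A]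

/-- Circle multiplication by `a`. -/
def Lop : A →ₗ[F] Module.End F A :=
  LinearMap.mk₂ F circ circ_add_left circ_smul_left circ_add_right (circ_smul_right)

/-- Bracket with `a`. -/
def Dop : A →ₗ[F] Module.End F A :=
  LinearMap.mk₂ F br br_add_left br_smul_left br_add_right (br_smul_right)

@[simp]
theorem Lop_apply (a b : A) : Lop F a b = circ a b := rfl

@[simp]
theorem Dop_apply (a b : A) : Dop F a b = br a b := rfl

variable [hK : KAlg A]

theorem kleib (a b c : A) : br a (circ b c) = circ (br a b) c + circ b (br a c) :=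
  leibniz hK.kok hK.tf a b c

theorem kassoc (a b c : A) : circ (circ a b) c = circ a (circ b c) :=
  circ_assoc hK.kok hK.tf a b c

theorem Lop_mul (a b : A) : Lop F (circ a b) = Lop F a * Lop F b := by
  ext c
  exact kassoc a b c

theorem Lop_comm (a b : A) : Lop F a * Lop F b = Lop F b * Lop F a := by
  rw [← Lop_mul, ← Lop_mul, circ_comm]

theorem Dop_Lop (a b : A) : Dop F a * Lop F b - Lop F b * Dop F a = Lop F (br a b) := by
  ext c
  simp only [LinearMap.sub_apply, Module.End.mul_apply, Lop_apply, Dop_apply]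
  rw [kleib]
  abel

variable (A) in
/-- The algebra generated by the circle multiplications. -/
abbrev LL : Subalgebra F (Module.End F A) := Algebra.adjoin F (Set.range (Lop F (A := A)))

instance : IsMulCommutative (LL F A) := by
  apply Algebra.isMulCommutative_adjoin
  rintro _ ⟨a, rfl⟩ _ ⟨b, rfl⟩
  exact Lop_comm F a b

/-- Circle multiplication as an element of `LL`. -/
def lop (a : A) : LL F A := ⟨Lop F a, Algebra.subset_adjoin ⟨a, rfl⟩⟩

theorem lop_add (a b : A) : lop F (a + b) = lop F a + lop F b :=
  Subtype.ext (map_add (Lop F) a b)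

theorem lop_smul (c : F) (a : A) : lop F (c • a) = c • lop F a :=
  Subtype.ext (map_smul (Lop F) c a)

theorem lop_circ (a b : A) : lop F (circ a b) = lop F a * lop F b :=
  Subtype.ext (Lop_mul F a b)

theorem ad_mem (c : A) {T : Module.End F A} (hT : T ∈ LL F A) :
    Dop F c * T - T * Dop F c ∈ LL F A := by
  induction hT using Algebra.adjoin_induction with
  | mem x hx =>
    obtain ⟨a, rfl⟩ := hx
    rw [Dop_Lop]
    exact Algebra.subset_adjoin ⟨_, rfl⟩
  | algebraMap r =>
    rw [Algebra.commutes, sub_self]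
    exact Subalgebra.zero_mem _
  | add x y _ _ hx hy =>
    rw [mul_add, add_mul, add_sub_add_comm]
    exact Subalgebra.add_mem _ hx hy
  | mul x y hx' hy' hx hy =>
    have : Dop F c * (x * y) - x * y * Dop F c
        = (Dop F c * x - x * Dop F c) * y + x * (Dop F c * y - y * Dop F c) := by
      noncomm_ring
    rw [this]
    exact Subalgebra.add_mem _ (Subalgebra.mul_mem _ hx hy') (Subalgebra.mul_mem _ hx' hy)

/-- The commutator with `Dop c` as an additive map on `LL`. -/
def adD (c : A) : LL F A →+ LL F A where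
  toFun T := ⟨Dop F c * T - T * Dop F c, ad_mem F c T.2⟩
  map_zero' := by ext; simp
  map_add' x y := by
    apply Subtype.ext
    change Dop F c * ((x : Module.End F A) + y) - ((x : Module.End F A) + y) * Dop F c
      = (Dop F c * x - x * Dop F c) + (Dop F c * y - y * Dop F c)
    noncomm_ring

theorem adD_lop (c a : A) : adD F c (lop F a) = lop F (br c a) :=
  Subtype.ext (Dop_Lop F c a)

theorem adD_leib (c : A) (x y : LL F A) : adD F c (x * y) = adD F c x * y + x * adD F c y := by
  apply Subtype.ext
  change Dop F c * ((x : Module.End F A) * y) - ((x : Module.End F A) * y) * Dop F c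
    = (Dop F c * x - x * Dop F c) * y + x * (Dop F c * y - y * Dop F c)
  noncomm_ring

theorem adD_smul (c : A) (x : LL F A) (a : A) :
    (Dop F c).toAddMonoidHom (x • a) = adD F c x • a + x • (Dop F c).toAddMonoidHom a := by
  change Dop F c ((x : Module.End F A) a) = (Dop F c * x - x * Dop F c) a
    + (x : Module.End F A) (Dop F c a)
  simp

theorem lop_smul_eq (a b : A) : lop F a • b = circ a b := rfl

end Ops

section NilSimple

variable (F : Type u) [Field F] {A : Type u} [NonUnitalNonAssocRing A] [Module F A]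
  [IsScalarTower F A A] [SMulCommClass F A A]

theorem half_mul' (h2 : (2 : F) ≠ 0) (a b : A) :
    a * b = (2 : F)⁻¹ • (circ a b + br a b) := by
  rw [← two_mul_eq, ← Nat.cast_smul_eq_nsmul F, smul_smul]
  simp [h2]

/-- In a simple Kokoris algebra with nil plus-algebra, the circle product vanishes
(abstract form). -/
theorem circ_eq_zero_of_nil_abs {R : Type u} [CommRing R] [Algebra F R] [Module R A]
    [IsScalarTower F R A] (l : A → R) (adR : A → R →+ R) (dM : A → A →+ A)
    (hdM : ∀ c a, dM c a = br c a)
    (hl : ∀ a b : A, l a • b = circ a b)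
    (hleib : ∀ c x y, adR c (x * y) = adR c x * y + x * adR c y)
    (hadl : ∀ c a, adR c (l a) = l (br c a))
    (hsm : ∀ c (r : R) (a : A), dM c (r • a) = adR c r • a + r • dM c a)
    (h2 : (2 : F) ≠ 0) (hs : IsSimpleAlgebra F A)
    (hnil : ∀ a : A, IsNilpotent (l a)) (a b : A) : circ b a = 0 := by
  classical
  let J : Ideal R := Ideal.span (Set.range l)
  have hJ : J ≤ nilradical R := by
    apply Ideal.span_le.mpr
    rintro _ ⟨a, rfl⟩
    exact hnil a
  have hJd : ∀ c, ∀ r ∈ J, adR c r ∈ J := by
    intro c r hr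
    have hr' : r ∈ Submodule.span R (Set.range l) := hr
    induction hr' using Submodule.span_induction with
    | mem x hx =>
      obtain ⟨a, rfl⟩ := hx
      rw [hadl]
      exact Ideal.subset_span ⟨_, rfl⟩
    | zero => rw [map_zero]; exact J.zero_mem
    | add x y hx' hy' hx hy => rw [map_add]; exact J.add_mem (hx hx') (hy hy')
    | smul t x hx' hx =>
      rw [smul_eq_mul, hleib]
      exact J.add_mem (J.mul_mem_left _ hx') (J.mul_mem_left _ (hx hx'))
  by_contra hab
  let W0 : Submodule R A := Submodule.span R {a}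
  let U : Submodule F A :=
    { carrier := {u | ∃ (S : Finset A) (d : ℕ) (J0 : Ideal R), J0.FG ∧ J0 ≤ J ∧
        u ∈ J0 • (dW dM (S : Set A))^[d] W0}
      add_mem' := by
        rintro x y ⟨S, d, J0, hJ0, hJ0J, hx⟩ ⟨S', d', J0', hJ0', hJ0J', hy⟩
        refine ⟨S ∪ S', max d d', J0 ⊔ J0', Submodule.FG.sup hJ0 hJ0', sup_le hJ0J hJ0J', ?_⟩
        refine Submodule.add_mem _ ?_ ?_
        · exact Submodule.smul_mono le_sup_left
            (dW_iter_mono dM (by simp) le_rfl (le_max_left d d')) hx
        · exact Submodule.smul_mono le_sup_right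
            (dW_iter_mono dM (by simp) le_rfl (le_max_right d d')) hy
      zero_mem' := ⟨∅, 0, ⊥, Submodule.fg_bot, bot_le, Submodule.zero_mem _⟩
      smul_mem' := by
        rintro c x ⟨S, d, J0, hJ0, hJ0J, hx⟩
        refine ⟨S, d, J0, hJ0, hJ0J, ?_⟩
        have : c • x = (algebraMap F R c) • x := (algebraMap_smul _ c x).symm
        rw [this]
        exact Submodule.smul_mem _ _ hx }
  have hcirc : ∀ c : A, ∀ u ∈ U, circ c u ∈ U := by
    rintro c u ⟨S, d, J0, hJ0, hJ0J, hx⟩
    refine ⟨S, d, J0, hJ0, hJ0J, ?_⟩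
    rw [← hl]
    exact Submodule.smul_mem _ (l c) hx
  have hbr : ∀ c : A, ∀ u ∈ U, br c u ∈ U := by
    rintro c u ⟨S, d, J0, hJ0, hJ0J, hx⟩
    have hfg1 : (dI adR {c} J0).FG :=
      dI_fg adR hleib (Set.finite_singleton c) hJ0
    have hle1 : dI adR {c} J0 ≤ J :=
      dI_le adR hJ0J (fun e _ r hr => hJd e r (hJ0J hr))
    refine ⟨insert c S, d + 1, dI adR {c} J0, hfg1, hle1, ?_⟩
    have hle : (dW dM (S : Set A))^[d] W0
        ≤ (dW dM ((insert c S : Finset A) : Set A))^[d] W0 :=
      dW_iter_mono dM (by simp) le_rfl le_rfl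
    have hx' : u ∈ J0 • (dW dM ((insert c S : Finset A) : Set A))^[d] W0 :=
      Submodule.smul_mono le_rfl hle hx
    clear hx
    rw [← hdM]
    induction hx' using Submodule.smul_induction_on' with
    | smul r hr w hw =>
      rw [hsm]
      refine Submodule.add_mem _ ?_ ?_
      · refine Submodule.smul_mem_smul (dR_mem_dI _ (Set.mem_singleton c) hr) ?_
        rw [Function.iterate_succ_apply']
        exact le_dW _ _ _ hw
      · refine Submodule.smul_mem_smul (le_dI _ _ _ hr) ?_
        rw [Function.iterate_succ_apply']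
        exact dM_mem_dW dM (by simp) hw
    | add x hx y hy h1 h2 =>
      rw [map_add]
      exact Submodule.add_mem _ h1 h2
  have hUid : ∀ c : A, ∀ u ∈ U, c * u ∈ U ∧ u * c ∈ U := by
    intro c u hu
    constructor
    · rw [half_mul' F h2]
      exact U.smul_mem _ (U.add_mem (hcirc c u hu) (hbr c u hu))
    · rw [half_mul' F h2, circ_comm, br_skew]
      exact U.smul_mem _ (U.add_mem (hcirc c u hu) (U.neg_mem (hbr c u hu)))
  have hmem : circ b a ∈ U := by
    refine ⟨∅, 0, Ideal.span {l b}, Submodule.fg_span (Set.finite_singleton _), ?_, ?_⟩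
    · apply Ideal.span_mono
      rintro _ rfl
      exact ⟨b, rfl⟩
    · rw [← hl]
      exact Submodule.smul_mem_smul (Ideal.subset_span rfl) (Submodule.mem_span_singleton_self a)
  rcases hs.2 U hUid with h | h
  · rw [h] at hmem
    exact hab (by simpa using hmem)
  · have ha : a ∈ U := by rw [h]; trivial
    obtain ⟨S, d, J0, hJ0, hJ0J, hx⟩ := ha
    have := nil_lemma adR dM hleib hsm J hJ hJd S.finite_toSet hJ0 hJ0J d a hx
    apply hab
    rw [this, circ_zero_right]

/-- In a simple Kokoris algebra with nil plus-algebra, the circle product vanishes. -/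
theorem circ_eq_zero_of_nil [hK : KAlg A] (h2 : (2 : F) ≠ 0) (hs : IsSimpleAlgebra F A)
    (hnil : ∀ a : A, IsNilpotent (lop F a)) (a b : A) : circ b a = 0 :=
  circ_eq_zero_of_nil_abs F (R := LL F A) (lop F) (adD F) (fun c => (Dop F c).toAddMonoidHom)
    (fun _ _ => rfl) (fun _ _ => rfl) (adD_leib F) (adD_lop F) (adD_smul F) h2 hs hnil a b

end NilSimple

end Pool.Agent.Helper9.Kokoris
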