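import Mathlib

set_option autoImplicit false

namespace Pool.Agent.Helper9.Kokoris

universe u

/-- The associator `(a,b,c) = (ab)c - a(bc)`. -/
def asc {A : Type u} [NonUnitalNonAssocRing A] (a b c : A) : A := (a * b) * c - a * (b * c)

/-- The commutator `[a,b] = ab - ba`. -/
def br {A : Type u} [NonUnitalNonAssocRing A] (a b : A) : A := a * b - b * a

/-- The circle product `a ∘ b = ab + ba`. -/
def circ {A : Type u} [NonUnitalNonAssocRing A] (a b : A) : A := a * b + b * a

/-- `A` is a Kokoris algebra: `J(a,b,c) = 4(a,b,c) - [[a,c],b]` holds identically, where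
`J(a,b,c) = [[a,b],c] + [[b,c],a] + [[c,a],b]`. -/
def IsKokoris (A : Type u) [NonUnitalNonAssocRing A] : Prop :=
  ∀ a b c : A, br (br a b) c + br (br b c) a + br (br c a) b
    = (4 : ℕ) • asc a b c - br (br a c) b

/-- `A` lies in the variety of `F`-algebras defined by the set `I` of identities; an identity is an
element of the free nonassociative (nonunital) `F`-algebra on countably many generators. -/
def InVariety (F : Type u) [Field F] (I : Set (FreeNonUnitalNonAssocAlgebra F ℕ))
    (A : Type u) [NonUnitalNonAssocRing A] [Module F A] [IsScalarTower F A A]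
    [SMulCommClass F A A] : Prop :=
  ∀ f ∈ I, ∀ φ : FreeNonUnitalNonAssocAlgebra F ℕ →ₙₐ[F] A, φ f = 0

/-- `IsProductOf n b`: the element `b` is a product of `n` elements of `B`, with some arrangement
of brackets. -/
inductive IsProductOf {B : Type u} [Mul B] : ℕ → B → Prop
  | single (b : B) : IsProductOf 1 b
  | mul {m n : ℕ} {a b : B} : IsProductOf m a → IsProductOf n b → IsProductOf (m + n) (a * b)

/-- `B` is nilpotent: for some `n ≥ 1` all products of `n` elements of `B`, with any arrangement
of brackets, vanish. -/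
def IsNilpotentAlgebra (B : Type u) [Mul B] [Zero B] : Prop :=
  ∃ n : ℕ, 1 ≤ n ∧ ∀ b : B, IsProductOf n b → b = 0

/-- `A` is locally nilpotent: every finitely generated subalgebra is nilpotent. -/
def IsLocallyNilpotent (F : Type u) [Field F] (A : Type u) [NonUnitalNonAssocRing A] [Module F A]
    [IsScalarTower F A A] [SMulCommClass F A A] : Prop :=
  ∀ s : Finset A, IsNilpotentAlgebra (NonUnitalAlgebra.adjoin F (s : Set A))

/-- The variety of `F`-algebras defined by `I` is locally admissible: every anticommutative algebra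
in it is locally nilpotent. -/
def IsLocallyAdmissible (F : Type u) [Field F] (I : Set (FreeNonUnitalNonAssocAlgebra F ℕ)) :
    Prop :=
  ∀ (M : Type u) [NonUnitalNonAssocRing M] [Module F M] [IsScalarTower F M M]
    [SMulCommClass F M M], InVariety F I M → (∀ a b : M, a * b = -(b * a)) →
      IsLocallyNilpotent F M

/-- The `F`-algebra `A` is simple: `A² ≠ 0` and `A` has no ideals other than `0` and `A`. -/
def IsSimpleAlgebra (F : Type u) [Field F] (A : Type u) [NonUnitalNonAssocRing A] [Module F A] :
    Prop :=
  (∃ a b : A, a * b ≠ 0) ∧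
    ∀ J : Submodule F A, (∀ a : A, ∀ b ∈ J, a * b ∈ J ∧ b * a ∈ J) → J = ⊥ ∨ J = ⊤

/-- `A` is a field: a commutative associative division algebra (with unit `e ≠ 0`). -/
def IsFieldAlgebra (A : Type u) [NonUnitalNonAssocRing A] : Prop :=
  (∀ a b : A, a * b = b * a) ∧ (∀ a b c : A, (a * b) * c = a * (b * c)) ∧
    ∃ e : A, e ≠ 0 ∧ (∀ a : A, e * a = a) ∧ ∀ a : A, a ≠ 0 → ∃ b : A, a * b = e

end Pool.Agent.Helper9.Kokoris
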