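import Pool.Agent.Helper9.Kokoris.Cent
import Pool.Agent.Helper9.Kokoris.Anti

set_option autoImplicit false
set_option linter.unusedSectionVars false

namespace Pool.Agent.Helper9.Kokoris

open scoped IsMulCommutative

universe u

section Finite

variable {F : Type u} [Field F] {I : Set (FreeNonUnitalNonAssocAlgebra F ℕ)}
  {A : Type u} [NonUnitalNonAssocRing A] [Module F A]
  [IsScalarTower F A A] [SMulCommClass F A A]

theorem isNilpotent_lop_iff [hK : KAlg A] (z : A) :
    IsNilpotent (lop F z) ↔ ∃ n : ℕ, ∀ a : A, (circ z)^[n] a = 0 := by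
  have key : ∀ n : ℕ, ∀ a : A, ((lop F z) ^ n : LL F A) • a = (circ z)^[n] a := by
    intro n
    induction n with
    | zero => intro a; simp
    | succ n ih =>
      intro a
      rw [pow_succ, mul_smul, lop_smul_eq, ih, Function.iterate_succ_apply]
  constructor
  · rintro ⟨n, hn⟩
    refine ⟨n, fun a => ?_⟩
    rw [← key, hn, zero_smul]
  · rintro ⟨n, hn⟩
    refine ⟨n, ?_⟩
    apply Subtype.ext
    ext a
    have := key n a
    rw [hn] at this
    exact this

theorem nilpotent_fin [Finite F] [hK : KAlg A] (hI : IsLocallyAdmissible F I)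
    (hA : InVariety F I A) (h2 : (2 : F) ≠ 0) (hs : IsSimpleAlgebra F A) (x y : A) :
    IsNilpotent (lop F (br x y)) := by
  let _ : Field (cent F A) := (cent_isField hs).toField
  have hst1 : IsScalarTower (cent F A) A A := ⟨fun c a b => by
    change (c : Module.End F A) a * b = (c : Module.End F A) (a * b)
    exact ((c.2 a b).1).symm⟩
  have hst2 : SMulCommClass (cent F A) A A := ⟨fun c a b => by
    change (c : Module.End F A) (a * b) = a * (c : Module.End F A) b
    exact (c.2 a b).2⟩
  have h2C : (2 : cent F A) ≠ 0 := by
    intro h
    apply h2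
    rw [← map_eq_zero (algebraMap F (cent F A)), map_ofNat, h]
  rcases finite_or_infinite (cent F A) with hfin | hinf
  · obtain ⟨p, hp⟩ := CharP.exists F
    have hp0 : p ≠ 0 := CharP.char_ne_zero_of_finite F p
    have hpp : p.Prime := (CharP.char_is_prime_or_zero F p).resolve_right hp0
    have : Fact p.Prime := ⟨hpp⟩
    have hpC : CharP (cent F A) p :=
      charP_of_injective_algebraMap (algebraMap F (cent F A)).injective p
    have : Nontrivial A := by
      obtain ⟨a, b, hab⟩ := hs.1
      exact ⟨a * b, 0, hab⟩
    have hpE : CharP (Module.End F A) p :=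
      charP_of_injective_algebraMap (algebraMap F (Module.End F A)).injective p
    let T : A → cent F A := fun a => ⟨Lop F a ^ p, pow_mem_cent p a⟩
    have hTadd : ∀ a b, T (a + b) = T a + T b := by
      intro a b
      apply Subtype.ext
      change Lop F (a + b) ^ p = Lop F a ^ p + Lop F b ^ p
      rw [map_add]
      exact add_pow_char_of_commute _ (Lop_comm F a b)
    have hTmul : ∀ a b, T (circ a b) = T a * T b := by
      intro a b
      apply Subtype.ext
      change Lop F (circ a b) ^ p = Lop F a ^ p * Lop F b ^ p
      rw [Lop_mul]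
      exact Commute.mul_pow (Lop_comm F a b) p
    have hTsmul : ∀ (c : cent F A) a, T (c • a) = c ^ p * T a := by
      intro c a
      apply Subtype.ext
      change Lop F (c • a) ^ p = (c : Module.End F A) ^ p * Lop F a ^ p
      have h1 : Lop F (c • a) = (c : Module.End F A) * Lop F a := by
        ext b
        exact circ_smul_left c a b
      have h3 : Commute (c : Module.End F A) (Lop F a) := by
        ext b
        exact (circ_smul_right c a b).symm
      rw [h1, h3.mul_pow]
    let φ : A →ₗ[cent F A] cent F A :=
      { toFun := fun a => (frobeniusEquiv (cent F A) p).symm (T a)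
        map_add' := fun a b => by rw [hTadd, map_add]
        map_smul' := fun c a => by
          rw [hTsmul, map_mul, RingHom.id_apply, smul_eq_mul]
          congr 1
          rw [RingEquiv.symm_apply_eq, frobeniusEquiv_def] }
    have h := point_thm (K := cent F A) hI hA h2C kleib φ (fun a b => by
      change (frobeniusEquiv (cent F A) p).symm (T (circ a b)) =
        (frobeniusEquiv (cent F A) p).symm (T a) * (frobeniusEquiv (cent F A) p).symm (T b)
      rw [hTmul, map_mul]) x y
    have h' : (frobeniusEquiv (cent F A) p).symm (T (br x y)) = 0 := h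
    rw [RingEquiv.symm_apply_eq, map_zero] at h'
    have h'' : Lop F (br x y) ^ p = 0 := congrArg Subtype.val h'
    refine ⟨p, ?_⟩
    apply Subtype.ext
    exact h''
  · rw [isNilpotent_lop_iff]
    rw [← isNilpotent_lop_iff (F := cent F A)]
    exact nilpotent_inf (cent F A) hI hA h2C x y

end Finite

section Main

variable {F : Type u} [Field F] {I : Set (FreeNonUnitalNonAssocAlgebra F ℕ)}
  {A : Type u} [NonUnitalNonAssocRing A] [Module F A]
  [IsScalarTower F A A] [SMulCommClass F A A]

theorem tf_of_two (h2 : (2 : F) ≠ 0) (a : A) (h : (2 : ℕ) • a = 0) : a = 0 := by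
  rw [← Nat.cast_smul_eq_nsmul F] at h
  rcases smul_eq_zero.mp h with h | h
  · exact absurd (by simpa using h) h2
  · exact h

/-- A simple Kokoris algebra in a locally admissible variety is a field. -/
theorem main (h2 : (2 : F) ≠ 0) (hI : IsLocallyAdmissible F I) (hA : InVariety F I A)
    (hK : IsKokoris A) (hs : IsSimpleAlgebra F A) : IsFieldAlgebra A := by
  have hKA : KAlg A := ⟨hK, tf_of_two (F := F) h2⟩
  -- some element is not nil
  have hnn : ¬ ∀ a : A, IsNilpotent (lop F a) := by
    intro hnil
    have h0 := circ_eq_zero_of_nil F h2 hs hnil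
    apply not_locallyNilpotent hs
    apply hI A hA
    intro a b
    rw [eq_neg_iff_add_eq_zero]
    exact h0 b a
  -- commutators are nilpotent
  have hbr : ∀ x y : A, IsNilpotent (lop F (br x y)) := by
    intro x y
    rcases finite_or_infinite F with hfin | hinf
    · exact nilpotent_fin hI hA h2 hs x y
    · exact nilpotent_inf F hI hA h2 x y
  -- the nil elements form an ideal
  let N : Submodule F A :=
    { carrier := {a | IsNilpotent (lop F a)}
      add_mem' := by
        intro a b ha hb
        change IsNilpotent (lop F (a + b))
        rw [lop_add]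
        exact Commute.isNilpotent_add (Commute.all _ _) ha hb
      zero_mem' := by
        have h0 : lop F (0 : A) = 0 := by
          have := lop_smul F (0 : F) (0 : A)
          simpa using this
        change IsNilpotent (lop F 0)
        rw [h0]
        exact IsNilpotent.zero
      smul_mem' := by
        intro c a ha
        change IsNilpotent (lop F (c • a))
        rw [lop_smul]
        exact ha.smul c }
  have hN : ∀ a : A, ∀ b ∈ N, a * b ∈ N ∧ b * a ∈ N := by
    intro a b hb
    have h1 : circ a b ∈ N := by
      change IsNilpotent (lop F (circ a b))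
      rw [lop_circ]
      exact Commute.isNilpotent_mul_left (Commute.all _ _) hb
    have h3 : br a b ∈ N := hbr a b
    constructor
    · rw [half_mul' F h2]
      exact N.smul_mem _ (N.add_mem h1 h3)
    · rw [half_mul' F h2, circ_comm, br_skew]
      exact N.smul_mem _ (N.add_mem h1 (N.neg_mem h3))
  have hN0 : N = ⊥ := by
    rcases hs.2 N hN with h | h
    · exact h
    · exfalso
      apply hnn
      intro a
      have : a ∈ N := by rw [h]; trivial
      exact this
  have hbr0 : ∀ x y : A, br x y = 0 := by
    intro x y
    have : br x y ∈ N := hbr x y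
    rw [hN0] at this
    simpa using this
  have hcomm : ∀ a b : A, a * b = b * a := fun a b => sub_eq_zero.mp (hbr0 a b)
  have hcirc : ∀ a b : A, circ a b = (2 : ℕ) • (a * b) := by
    intro a b
    rw [circ, hcomm b a, two_smul]
  have hassoc : ∀ a b c : A, (a * b) * c = a * (b * c) := by
    intro a b c
    have h := kassoc a b c
    rw [hcirc, hcirc a b, hcirc a, hcirc b c, smul_mul_assoc, mul_smul_comm, ← sub_eq_zero,
      ← smul_sub, ← smul_sub] at h
    exact sub_eq_zero.mp (hKA.tf _ (hKA.tf _ h))
  have hrange : ∀ a : A, a ≠ 0 → ∀ x : A, ∃ b, a * b = x := by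
    intro a ha
    let R : Submodule F A := LinearMap.range (LinearMap.mulLeft F a)
    have hR : ∀ c : A, ∀ b ∈ R, c * b ∈ R ∧ b * c ∈ R := by
      rintro c _ ⟨b, rfl⟩
      simp only [LinearMap.mulLeft_apply]
      constructor
      · refine ⟨c * b, ?_⟩
        simp only [LinearMap.mulLeft_apply]
        rw [← hassoc, hcomm a c, hassoc]
      · exact ⟨b * c, by simp only [LinearMap.mulLeft_apply]; rw [hassoc]⟩
    rcases hs.2 R hR with h | h
    · exfalso
      -- the annihilator is a nonzero ideal
      let Z : Submodule F A :=
        { carrier := {z | ∀ b : A, z * b = 0}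
          add_mem' := by
            intro x y hx hy b
            rw [add_mul, hx b, hy b, add_zero]
          zero_mem' := fun b => zero_mul b
          smul_mem' := by
            intro c x hx b
            rw [smul_mul_assoc, hx b, smul_zero] }
      have hZ : ∀ c : A, ∀ b ∈ Z, c * b ∈ Z ∧ b * c ∈ Z := by
        intro c b hb
        have h1 : b * c = 0 := hb c
        have h3 : c * b = 0 := by rw [hcomm]; exact h1
        rw [h1, h3]
        exact ⟨Z.zero_mem, Z.zero_mem⟩
      have haZ : a ∈ Z := by
        intro b
        have : a * b ∈ R := ⟨b, rfl⟩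
        rw [h] at this
        simpa using this
      rcases hs.2 Z hZ with h' | h'
      · rw [h'] at haZ
        exact ha (by simpa using haZ)
      · obtain ⟨c, d, hcd⟩ := hs.1
        have : c ∈ Z := by rw [h']; trivial
        exact hcd (this d)
    · intro x
      have : x ∈ R := by rw [h]; trivial
      exact this
  obtain ⟨c, d, hcd⟩ := hs.1
  have hc0 : c ≠ 0 := by
    rintro rfl
    exact hcd (zero_mul d)
  obtain ⟨e, he⟩ := hrange c hc0 c
  have heu : ∀ a : A, e * a = a := by
    intro a
    obtain ⟨b, rfl⟩ := hrange c hc0 a
    rw [← hassoc, hcomm e c, he]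
  refine ⟨hcomm, hassoc, e, ?_, heu, ?_⟩
  · rintro rfl
    apply hc0
    rw [← he, mul_zero]
  · intro a ha
    exact hrange a ha e

end Main

end Pool.Agent.Helper9.Kokoris
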