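import Pool.Agent.Helper9.Kokoris.Comm

set_option autoImplicit false
set_option linter.unusedSectionVars false

namespace Pool.Agent.Helper9.Kokoris

open scoped IsMulCommutative TensorProduct

universe u

section Tensor

variable {C : Type u} [Field C]
variable {A : Type u} [NonUnitalNonAssocRing A] [Module C A] [IsScalarTower C A A]
  [SMulCommClass C A A]
variable (K : Type u) [Field K] [Algebra C K]

theorem br_tmul (k l : K) (a b : A) : br (k ⊗ₜ[C] a) (l ⊗ₜ[C] b) = (k * l) ⊗ₜ[C] br a b := by
  rw [br, Algebra.TensorProduct.tmul_mul_tmul, Algebra.TensorProduct.tmul_mul_tmul, mul_comm l k,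
    ← TensorProduct.tmul_sub, br]

theorem circ_tmul (k l : K) (a b : A) :
    circ (k ⊗ₜ[C] a) (l ⊗ₜ[C] b) = (k * l) ⊗ₜ[C] circ a b := by
  rw [circ, Algebra.TensorProduct.tmul_mul_tmul, Algebra.TensorProduct.tmul_mul_tmul, mul_comm l k,
    ← TensorProduct.tmul_add, circ]

theorem leib_tensor (leib : ∀ a b c : A, br a (circ b c) = circ (br a b) c + circ b (br a c))
    (u v w : K ⊗[C] A) : br u (circ v w) = circ (br u v) w + circ v (br u w) := by
  induction u using TensorProduct.induction_on with
  | zero => simp only [br_zero_left, circ_zero_left, circ_zero_right, add_zero]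
  | add x y hx hy =>
    rw [br_add_left, hx, hy, br_add_left, br_add_left, circ_add_left, circ_add_right]; abel
  | tmul k a =>
    induction v using TensorProduct.induction_on with
    | zero => simp only [br_zero_right, circ_zero_left, add_zero]
    | add x y hx hy =>
      rw [circ_add_left, br_add_right, hx, hy, br_add_right, circ_add_left, circ_add_left]; abel
    | tmul l b =>
      induction w using TensorProduct.induction_on with
      | zero => simp only [br_zero_right, circ_zero_right, add_zero]
      | add x y hx hy =>
        rw [circ_add_right, br_add_right, hx, hy, br_add_right, circ_add_right, circ_add_right]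
        abel
      | tmul m c =>
        rw [circ_tmul, br_tmul, br_tmul, circ_tmul, br_tmul, circ_tmul, leib,
          TensorProduct.tmul_add, mul_assoc, mul_left_comm l k m]

end Tensor

section Inf

variable {F : Type u} [Field F] {I : Set (FreeNonUnitalNonAssocAlgebra F ℕ)}
variable (C : Type u) [Field C] [Algebra F C]
variable {A : Type u} [NonUnitalNonAssocRing A] [Module F A] [IsScalarTower F A A]
  [SMulCommClass F A A] [Module C A] [IsScalarTower C A A] [SMulCommClass C A A]
  [IsScalarTower F C A]

/-- Over an infinite field `C`, a point of the plus-algebra kills commutators. -/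
theorem point_inf [Infinite C] (hI : IsLocallyAdmissible F I) (hA : InVariety F I A)
    (h2 : (2 : C) ≠ 0)
    (leib : ∀ a b c : A, br a (circ b c) = circ (br a b) c + circ b (br a c))
    (K : Type u) [Field K] [Algebra C K] (φ : A →ₗ[C] K)
    (hφ : ∀ a b, φ (circ a b) = φ a * φ b) (x y : A) : φ (br x y) = 0 := by
  let _ : Algebra F K := ((algebraMap C K).comp (algebraMap F C)).toAlgebra
  have : IsScalarTower F C K := IsScalarTower.of_algebraMap_eq' rfl
  have hB : InVariety F I (K ⊗[C] A) := hA.tensor K
  have h2K : (2 : K) ≠ 0 := by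
    intro h
    apply h2
    rw [← map_eq_zero (algebraMap C K), map_ofNat, h]
  let ψ : (K ⊗[C] A) →ₗ[K] K := LinearMap.liftBaseChange K φ
  have hψt : ∀ (k : K) (a : A), ψ (k ⊗ₜ[C] a) = k * φ a := by
    intro k a
    simp [ψ, LinearMap.liftBaseChange_tmul]
  have hψ : ∀ u v : K ⊗[C] A, ψ (circ u v) = ψ u * ψ v := by
    intro u v
    induction u using TensorProduct.induction_on with
    | zero => rw [circ_zero_left, map_zero, zero_mul]
    | add x y hx hy => rw [circ_add_left, map_add, hx, hy, map_add, add_mul]
    | tmul k a =>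
      induction v using TensorProduct.induction_on with
      | zero => rw [circ_zero_right, map_zero, mul_zero]
      | add x y hx hy => rw [circ_add_right, map_add, hx, hy, map_add, mul_add]
      | tmul l b => rw [circ_tmul, hψt, hψt, hψt, hφ]; ring
  have h := point_thm hI hB h2K (leib_tensor K leib) ψ hψ ((1 : K) ⊗ₜ[C] x) ((1 : K) ⊗ₜ[C] y)
  rw [br_tmul, hψt] at h
  simpa using h

/-- Over an infinite field `C`, commutators are nilpotent in the plus-algebra. -/
theorem nilpotent_inf [Infinite C] [hK : KAlg A] (hI : IsLocallyAdmissible F I)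
    (hA : InVariety F I A) (h2 : (2 : C) ≠ 0) (x y : A) : IsNilpotent (lop C (br x y)) := by
  by_contra hn
  have hn' : lop C (br x y) ∉ nilradical (LL C A) := hn
  rw [nilradical_eq_sInf, Ideal.mem_sInf] at hn'
  push Not at hn'
  obtain ⟨P, hP, hPn⟩ := hn'
  have : P.IsPrime := hP
  let K := FractionRing ((LL C A) ⧸ P)
  let θ : (LL C A) →ₐ[C] K := (IsScalarTower.toAlgHom C ((LL C A) ⧸ P) K).comp (Ideal.Quotient.mkₐ C P)
  let φ : A →ₗ[C] K :=
    { toFun := fun a => θ (lop C a)
      map_add' := fun a b => by rw [lop_add, map_add]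
      map_smul' := fun c a => by rw [lop_smul, map_smul]; rfl }
  have h := point_inf C hI hA h2 kleib K φ (fun a b => by
    change θ (lop C (circ a b)) = θ (lop C a) * θ (lop C b)
    rw [lop_circ, map_mul]) x y
  apply hPn
  change θ (lop C (br x y)) = 0 at h
  have h' : algebraMap ((LL C A) ⧸ P) K (Ideal.Quotient.mk P (lop C (br x y))) = 0 := h
  rw [FaithfulSMul.algebraMap_eq_zero_iff] at h'
  exact Ideal.Quotient.eq_zero_iff_mem.mp h'

end Inf

end Pool.Agent.Helper9.Kokoris
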