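import Pool.Agent.Helper9.Kokoris.Closure

set_option autoImplicit false
set_option linter.unusedSectionVars false

namespace Pool.Agent.Helper9.Kokoris

universe u

section Identities

variable {A : Type u} [NonUnitalNonAssocRing A]

theorem asc_flex (h : IsKokoris A) (ht : ∀ a : A, (2 : ℕ) • a = 0 → a = 0) (a b : A) :
    asc a b a = 0 := by
  have h1 := h a b a
  have h2 : (2 : ℕ) • ((2 : ℕ) • asc a b a) = 0 := by
    have h3 : (2 : ℕ) • ((2 : ℕ) • asc a b a) = (4 : ℕ) • asc a b a := by
      rw [smul_smul]; norm_num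
    rw [h3]
    have h4 : (4 : ℕ) • asc a b a = br (br a b) a + br (br b a) a + br (br a a) b
        + br (br a a) b := by
      rw [h1]; abel
    rw [h4]
    simp only [br, mul_sub, sub_mul]
    abel
  exact ht _ (ht _ h2)

theorem asc_lin (h : IsKokoris A) (ht : ∀ a : A, (2 : ℕ) • a = 0 → a = 0) (a b c : A) :
    asc a b c + asc c b a = 0 := by
  have h1 := asc_flex h ht (a + c) b
  have h2 := asc_flex h ht a b
  have h3 := asc_flex h ht c b
  have h4 : asc a b c + asc c b a = asc (a + c) b (a + c) - asc a b a - asc c b c := by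
    simp only [asc, mul_add, add_mul]
    abel
  rw [h4, h1, h2, h3]
  simp

theorem leibniz (h : IsKokoris A) (ht : ∀ a : A, (2 : ℕ) • a = 0 → a = 0) (a b c : A) :
    br a (circ b c) = circ (br a b) c + circ b (br a c) := by
  have h1 := asc_lin h ht b c a
  have h2 := asc_lin h ht c b a
  have h3 := asc_lin h ht b a c
  have h4 : br a (circ b c) - (circ (br a b) c + circ b (br a c))
      = - (asc b c a + asc a c b) - (asc c b a + asc a b c) + (asc b a c + asc c a b) := by
    simp only [asc, br, circ, mul_add, add_mul, mul_sub, sub_mul]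
    abel
  rw [← sub_eq_zero, h4, h1, h2, h3]
  simp

theorem circ_assoc (h : IsKokoris A) (ht : ∀ a : A, (2 : ℕ) • a = 0 → a = 0) (a b c : A) :
    circ (circ a b) c = circ a (circ b c) := by
  have h1 := asc_lin h ht a b c
  have h2 := h a b c
  rw [← sub_eq_zero] at h2
  have h4 : circ (circ a b) c - circ a (circ b c)
      = - (br (br a b) c + br (br b c) a + br (br c a) b - ((4 : ℕ) • asc a b c - br (br a c) b))
        - (2 : ℕ) • (asc a b c + asc c b a) := by
    simp only [asc, br, circ, mul_add, add_mul, mul_sub, sub_mul, smul_sub, smul_add]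
    abel
  rw [← sub_eq_zero, h4, h1, h2]
  simp

theorem circ_comm (a b : A) : circ a b = circ b a := add_comm _ _

theorem br_skew (a b : A) : br a b = - br b a := by
  simp [br]

theorem br_self (a : A) : br a a = 0 := by simp [br]

theorem br_add_left (a b c : A) : br (a + b) c = br a c + br b c := by
  simp only [br, mul_add, add_mul]; abel

theorem br_add_right (a b c : A) : br a (b + c) = br a b + br a c := by
  simp only [br, mul_add, add_mul]; abel

theorem circ_add_left (a b c : A) : circ (a + b) c = circ a c + circ b c := by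
  simp only [circ, mul_add, add_mul]; abel

theorem circ_add_right (a b c : A) : circ a (b + c) = circ a b + circ a c := by
  simp only [circ, mul_add, add_mul]; abel

theorem br_neg_right (a b : A) : br a (-b) = - br a b := by
  simp only [br, mul_neg, neg_mul]; abel

theorem br_zero_right (a : A) : br a 0 = 0 := by simp [br]

theorem br_zero_left (a : A) : br 0 a = 0 := by simp [br]

theorem circ_zero_right (a : A) : circ a 0 = 0 := by simp [circ]

theorem circ_zero_left (a : A) : circ 0 a = 0 := by simp [circ]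

theorem two_mul_eq (a b : A) : (2 : ℕ) • (a * b) = circ a b + br a b := by
  simp only [circ, br, two_smul]; abel

variable {K : Type u} [Field K] [Module K A] [IsScalarTower K A A] [SMulCommClass K A A]

theorem br_smul_left (k : K) (a b : A) : br (k • a) b = k • br a b := by
  simp only [br, smul_mul_assoc, mul_smul_comm, smul_sub]

theorem br_smul_right (k : K) (a b : A) : br a (k • b) = k • br a b := by
  simp only [br, smul_mul_assoc, mul_smul_comm, smul_sub]

theorem circ_smul_left (k : K) (a b : A) : circ (k • a) b = k • circ a b := by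
  simp only [circ, smul_mul_assoc, mul_smul_comm, smul_add]

theorem circ_smul_right (k : K) (a b : A) : circ a (k • b) = k • circ a b := by
  simp only [circ, smul_mul_assoc, mul_smul_comm, smul_add]

end Identities

section Quot

variable {F : Type u} [Field F] {S : Type u} [NonUnitalNonAssocRing S] [Module F S]
  [IsScalarTower F S S] [SMulCommClass F S S]

/-- `J` is an ideal. -/
def IsIdealOf (J : Submodule F S) : Prop := ∀ a : S, ∀ b ∈ J, a * b ∈ J ∧ b * a ∈ J

/-- The quotient algebra. -/
def QAlg (J : Submodule F S) (_hJ : IsIdealOf J) : Type u := S ⧸ J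

variable (J : Submodule F S) (hJ : IsIdealOf J)

instance : AddCommGroup (QAlg J hJ) := inferInstanceAs (AddCommGroup (S ⧸ J))

instance : Module F (QAlg J hJ) := inferInstanceAs (Module F (S ⧸ J))

/-- The class of an element. -/
def qmk (a : S) : QAlg J hJ := Submodule.Quotient.mk (p := J) a

theorem qmk_surj : Function.Surjective (qmk J hJ) := Submodule.Quotient.mk_surjective J

theorem qmk_eq {a b : S} : qmk J hJ a = qmk J hJ b ↔ a - b ∈ J :=
  Submodule.Quotient.eq J

theorem qmk_eq_zero {a : S} : qmk J hJ a = 0 ↔ a ∈ J :=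
  Submodule.Quotient.mk_eq_zero J

theorem qmk_add (a b : S) : qmk J hJ (a + b) = qmk J hJ a + qmk J hJ b := rfl

theorem qmk_smul (c : F) (a : S) : qmk J hJ (c • a) = c • qmk J hJ a := rfl

theorem qmk_zero : qmk J hJ 0 = 0 := rfl

instance : Mul (QAlg J hJ) where
  mul x y := Quotient.liftOn₂' x y (fun a b => qmk J hJ (a * b)) (by
    intro a b a' b' h1 h2
    rw [qmk_eq]
    have h1' : a - a' ∈ J := (Submodule.quotientRel_def J).mp h1
    have h2' : b - b' ∈ J := (Submodule.quotientRel_def J).mp h2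
    have : a * b - a' * b' = (a - a') * b + a' * (b - b') := by
      rw [sub_mul, mul_sub]; abel
    rw [this]
    exact J.add_mem (hJ b _ h1').2 (hJ a' _ h2').1)

theorem qmk_mul (a b : S) : qmk J hJ (a * b) = qmk J hJ a * qmk J hJ b := rfl

instance : NonUnitalNonAssocRing (QAlg J hJ) where
  left_distrib x y z := by
    obtain ⟨a, rfl⟩ := qmk_surj J hJ x
    obtain ⟨b, rfl⟩ := qmk_surj J hJ y
    obtain ⟨c, rfl⟩ := qmk_surj J hJ z
    rw [← qmk_add, ← qmk_mul, mul_add, qmk_add, qmk_mul, qmk_mul]
  right_distrib x y z := by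
    obtain ⟨a, rfl⟩ := qmk_surj J hJ x
    obtain ⟨b, rfl⟩ := qmk_surj J hJ y
    obtain ⟨c, rfl⟩ := qmk_surj J hJ z
    rw [← qmk_add, ← qmk_mul, add_mul, qmk_add, qmk_mul, qmk_mul]
  zero_mul x := by
    obtain ⟨a, rfl⟩ := qmk_surj J hJ x
    rw [← qmk_zero, ← qmk_mul, zero_mul]
  mul_zero x := by
    obtain ⟨a, rfl⟩ := qmk_surj J hJ x
    rw [← qmk_zero, ← qmk_mul, mul_zero]

instance : IsScalarTower F (QAlg J hJ) (QAlg J hJ) where
  smul_assoc c x y := by
    obtain ⟨a, rfl⟩ := qmk_surj J hJ x
    obtain ⟨b, rfl⟩ := qmk_surj J hJ y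
    rw [smul_eq_mul, smul_eq_mul, ← qmk_smul, ← qmk_mul, ← qmk_mul, ← qmk_smul, smul_mul_assoc]

instance : SMulCommClass F (QAlg J hJ) (QAlg J hJ) where
  smul_comm c x y := by
    obtain ⟨a, rfl⟩ := qmk_surj J hJ x
    obtain ⟨b, rfl⟩ := qmk_surj J hJ y
    rw [smul_eq_mul, smul_eq_mul, ← qmk_smul, ← qmk_mul, ← qmk_mul, ← qmk_smul, mul_smul_comm]

/-- The quotient map. -/
def qHom : S →ₙₐ[F] QAlg J hJ where
  toFun := qmk J hJ
  map_smul' _ _ := rfl
  map_zero' := rfl
  map_add' _ _ := rfl
  map_mul' _ _ := rfl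

/-- The iterated left multiplication. -/
def iter {B : Type u} [Mul B] (h e : B) : ℕ → B
  | 0 => e
  | k + 1 => h * iter h e k

theorem iter_product {B : Type u} [Mul B] (h e : B) (k : ℕ) : IsProductOf (k + 1) (iter h e k) := by
  induction k with
  | zero => exact IsProductOf.single e
  | succ k ih =>
    have := IsProductOf.mul (IsProductOf.single h) ih
    rwa [add_comm] at this

include hJ in
theorem exists_iter_mem {I : Set (FreeNonUnitalNonAssocAlgebra F ℕ)}
    (hI : IsLocallyAdmissible F I) (hS : InVariety F I S)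
    (hanti : ∀ a b : S, circ a b ∈ J) (h e : S) : ∃ k : ℕ, iter h e k ∈ J := by
  classical
  have hQ : InVariety F I (QAlg J hJ) := hS.of_surjective (qHom J hJ) (qmk_surj J hJ)
  have hac : ∀ a b : QAlg J hJ, a * b = -(b * a) := by
    intro x y
    obtain ⟨a, rfl⟩ := qmk_surj J hJ x
    obtain ⟨b, rfl⟩ := qmk_surj J hJ y
    rw [eq_neg_iff_add_eq_zero, ← qmk_mul, ← qmk_mul, ← qmk_add, qmk_eq_zero]
    exact hanti a b
  obtain ⟨n, hn, hprod⟩ := hI (QAlg J hJ) hQ hac {qmk J hJ h, qmk J hJ e}
  set T := NonUnitalAlgebra.adjoin F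
    (({qmk J hJ h, qmk J hJ e} : Finset (QAlg J hJ)) : Set (QAlg J hJ)) with hT
  have hh : qmk J hJ h ∈ T := NonUnitalAlgebra.subset_adjoin F (by simp)
  have he : qmk J hJ e ∈ T := NonUnitalAlgebra.subset_adjoin F (by simp)
  refine ⟨n - 1, ?_⟩
  have h0 := hprod _ (by
    have := iter_product (⟨qmk J hJ h, hh⟩ : T) ⟨qmk J hJ e, he⟩ (n - 1)
    rwa [Nat.sub_add_cancel hn] at this)
  have hval : ∀ k, ((iter (⟨qmk J hJ h, hh⟩ : T) ⟨qmk J hJ e, he⟩ k : T) : QAlg J hJ)
      = qmk J hJ (iter h e k) := by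
    intro k
    induction k with
    | zero => rfl
    | succ k ih =>
      change qmk J hJ h * _ = qmk J hJ (h * iter h e k)
      rw [ih, qmk_mul]
  rw [← qmk_eq_zero J hJ, ← hval, h0]
  rfl

end Quot

section PointThm

variable {F : Type u} [Field F] {I : Set (FreeNonUnitalNonAssocAlgebra F ℕ)}
variable {K : Type u} [Field K] [Algebra F K]
variable {B : Type u} [NonUnitalNonAssocRing B] [Module F B] [IsScalarTower F B B]
  [SMulCommClass F B B] [Module K B] [IsScalarTower K B B] [SMulCommClass K B B]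
  [IsScalarTower F K B]

/-- The span of the circle products of elements of the kernel of `φ`. -/
def sq (φ : B →ₗ[K] K) : Submodule K B :=
  Submodule.span K {v | ∃ n m : B, φ n = 0 ∧ φ m = 0 ∧ v = circ n m}

theorem circ_mem_sq (φ : B →ₗ[K] K) {n m : B} (hn : φ n = 0) (hm : φ m = 0) :
    circ n m ∈ sq φ := Submodule.subset_span ⟨n, m, hn, hm, rfl⟩

theorem sq_le (φ : B →ₗ[K] K) (hφ : ∀ a b : B, φ (circ a b) = φ a * φ b) {u : B}
    (hu : u ∈ sq φ) : φ u = 0 := by
  induction hu using Submodule.span_induction with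
  | mem v hv =>
    obtain ⟨n, m, hn, hm, rfl⟩ := hv
    rw [hφ, hn, zero_mul]
  | zero => simp
  | add x y _ _ hx hy => rw [map_add, hx, hy, add_zero]
  | smul c x _ hx => rw [map_smul, hx, smul_zero]

theorem br_sq (leib : ∀ a b c : B, br a (circ b c) = circ (br a b) c + circ b (br a c))
    (φ : B →ₗ[K] K) (hφ : ∀ a b : B, φ (circ a b) = φ a * φ b) {u : B}
    (hu : u ∈ sq φ) (b : B) : φ (br b u) = 0 := by
  induction hu using Submodule.span_induction with
  | mem v hv =>
    obtain ⟨n, m, hn, hm, rfl⟩ := hv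
    rw [leib, map_add, hφ, hφ, hn, hm, mul_zero, zero_mul, add_zero]
  | zero => rw [br_zero_right, map_zero]
  | add x y _ _ hx hy => rw [br_add_right, map_add, hx, hy, add_zero]
  | smul c x _ hx => rw [br_smul_right, map_smul, hx, smul_zero]

theorem br_mem_sq (leib : ∀ a b c : B, br a (circ b c) = circ (br a b) c + circ b (br a c))
    (φ : B →ₗ[K] K) (hφ : ∀ a b : B, φ (circ a b) = φ a * φ b) {u v : B}
    (hu : u ∈ sq φ) (hv : v ∈ sq φ) : br u v ∈ sq φ := by
  have key : ∀ n : B, φ (br u n) = 0 := by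
    intro n
    rw [br_skew, map_neg, br_sq leib φ hφ hu, neg_zero]
  induction hv using Submodule.span_induction with
  | mem v hv =>
    obtain ⟨n, m, hn, hm, rfl⟩ := hv
    rw [leib]
    exact (sq φ).add_mem (circ_mem_sq φ (key n) hm) (circ_mem_sq φ hn (key m))
  | zero => rw [br_zero_right]; exact (sq φ).zero_mem
  | add x y _ _ hx hy => rw [br_add_right]; exact (sq φ).add_mem hx hy
  | smul c x _ hx => rw [br_smul_right]; exact (sq φ).smul_mem c hx

theorem half_mul (h2 : (2 : K) ≠ 0) (a b : B) :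
    a * b = (2 : K)⁻¹ • (circ a b + br a b) := by
  rw [← two_mul_eq, ← Nat.cast_smul_eq_nsmul K, smul_smul]
  simp [h2]

theorem mul_mem_sq (h2 : (2 : K) ≠ 0)
    (leib : ∀ a b c : B, br a (circ b c) = circ (br a b) c + circ b (br a c))
    (φ : B →ₗ[K] K) (hφ : ∀ a b : B, φ (circ a b) = φ a * φ b) {u v : B}
    (hu : u ∈ sq φ) (hv : v ∈ sq φ) : u * v ∈ sq φ := by
  rw [half_mul h2]
  exact (sq φ).smul_mem _ ((sq φ).add_mem (circ_mem_sq φ (sq_le φ hφ hu) (sq_le φ hφ hv))
    (br_mem_sq leib φ hφ hu hv))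

/-- The second jet of `u`. -/
def jet (φ : B →ₗ[K] K) (u b c : B) : K := φ (br b (br c u))

theorem jet_add (φ : B →ₗ[K] K) (u v b c : B) : jet φ (u + v) b c = jet φ u b c + jet φ v b c := by
  simp only [jet, br_add_right, map_add]

theorem jet_smul (φ : B →ₗ[K] K) (k : K) (u b c : B) : jet φ (k • u) b c = k * jet φ u b c := by
  simp only [jet, br_smul_right, map_smul, smul_eq_mul]

theorem jet_zero (φ : B →ₗ[K] K) (b c : B) : jet φ 0 b c = 0 := by
  simp only [jet, br_zero_right, map_zero]

/-- The second jet of a circle product. -/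
theorem jet_circ (leib : ∀ a b c : B, br a (circ b c) = circ (br a b) c + circ b (br a c))
    (φ : B →ₗ[K] K) (hφ : ∀ a b : B, φ (circ a b) = φ a * φ b) (u v b c : B) :
    jet φ (circ u v) b c = jet φ u b c * φ v + φ (br c u) * φ (br b v)
      + φ (br b u) * φ (br c v) + φ u * jet φ v b c := by
  simp only [jet, leib, br_add_right, map_add, hφ]
  ring

variable (F) in
/-- The subalgebra `sq φ`. -/
def sqAlg (h2 : (2 : K) ≠ 0)
    (leib : ∀ a b c : B, br a (circ b c) = circ (br a b) c + circ b (br a c))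
    (φ : B →ₗ[K] K) (hφ : ∀ a b : B, φ (circ a b) = φ a * φ b) : NonUnitalSubalgebra F B where
  carrier := sq φ
  add_mem' := (sq φ).add_mem
  zero_mem' := (sq φ).zero_mem
  mul_mem' := mul_mem_sq h2 leib φ hφ
  smul_mem' c x hx := by
    have := (sq φ).smul_mem (algebraMap F K c) hx
    rwa [algebraMap_smul] at this

/-- The subspace of elements of `sq φ` with vanishing second jet. -/
def cube (h2 : (2 : K) ≠ 0)
    (leib : ∀ a b c : B, br a (circ b c) = circ (br a b) c + circ b (br a c))
    (φ : B →ₗ[K] K) (hφ : ∀ a b : B, φ (circ a b) = φ a * φ b) :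
    Submodule F (sqAlg F h2 leib φ hφ) where
  carrier := {u | ∀ b c : B, jet φ (u : B) b c = 0}
  add_mem' := by
    intro u v hu hv b c
    change jet φ ((u : B) + (v : B)) b c = 0
    rw [jet_add, hu b c, hv b c, add_zero]
  zero_mem' := by
    intro b c
    exact jet_zero φ b c
  smul_mem' := by
    intro k u hu b c
    change jet φ (k • (u : B)) b c = 0
    rw [← algebraMap_smul K k (u : B), jet_smul, hu b c, mul_zero]

theorem jet_circ_sq (leib : ∀ a b c : B, br a (circ b c) = circ (br a b) c + circ b (br a c))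
    (φ : B →ₗ[K] K) (hφ : ∀ a b : B, φ (circ a b) = φ a * φ b) {u v : B}
    (hu : u ∈ sq φ) (hv : v ∈ sq φ) (b c : B) : jet φ (circ u v) b c = 0 := by
  rw [jet_circ leib φ hφ, sq_le φ hφ hu, sq_le φ hφ hv, br_sq leib φ hφ hu,
    br_sq leib φ hφ hu]
  ring

theorem jet_br_sq (leib : ∀ a b c : B, br a (circ b c) = circ (br a b) c + circ b (br a c))
    (φ : B →ₗ[K] K) (hφ : ∀ a b : B, φ (circ a b) = φ a * φ b) {u v : B}
    (hu : u ∈ sq φ) (hv : v ∈ sq φ) (hj : ∀ b c, jet φ u b c = 0) (b c : B) :
    jet φ (br v u) b c = 0 := by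
  induction hv using Submodule.span_induction with
  | mem v hv =>
    obtain ⟨n, m, hn, hm, rfl⟩ := hv
    rw [br_skew, leib]
    have h1 : ∀ b n : B, φ (br b (br u n)) = 0 := by
      intro b n
      rw [br_skew u n]
      rw [br_neg_right, map_neg]
      have := hj b n
      rw [jet] at this
      rw [this, neg_zero]
    have h0 : ∀ n : B, φ (br u n) = 0 := by
      intro n
      rw [br_skew, map_neg, br_sq leib φ hφ hu, neg_zero]
    have hneg : ∀ w : B, jet φ (-w) b c = - jet φ w b c := by
      intro w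
      have : -w = (-1 : K) • w := by simp
      rw [this, jet_smul]; ring
    rw [hneg, jet_add, jet_circ leib φ hφ, jet_circ leib φ hφ, hn, hm, h1, h1, h1, h1, h0, h0]
    ring
  | zero => rw [br_zero_left, jet_zero]
  | add x y _ _ hx hy => rw [br_add_left, jet_add, hx, hy, add_zero]
  | smul k x _ hx => rw [br_smul_left, jet_smul, hx, mul_zero]

theorem cube_ideal (h2 : (2 : K) ≠ 0)
    (leib : ∀ a b c : B, br a (circ b c) = circ (br a b) c + circ b (br a c))
    (φ : B →ₗ[K] K) (hφ : ∀ a b : B, φ (circ a b) = φ a * φ b) :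
    IsIdealOf (cube (F := F) h2 leib φ hφ) := by
  intro v u hu
  constructor
  · intro b c
    change jet φ ((v : B) * (u : B)) b c = 0
    rw [half_mul h2, jet_smul, jet_add, jet_circ_sq leib φ hφ v.2 u.2,
      jet_br_sq leib φ hφ u.2 v.2 hu]
    ring
  · intro b c
    change jet φ ((u : B) * (v : B)) b c = 0
    have hneg : ∀ w : B, jet φ (-w) b c = - jet φ w b c := by
      intro w
      have : -w = (-1 : K) • w := by simp
      rw [this, jet_smul]; ring
    rw [half_mul h2, jet_smul, jet_add, jet_circ_sq leib φ hφ u.2 v.2, br_skew, hneg,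
      jet_br_sq leib φ hφ u.2 v.2 hu]
    ring

/-- The main point argument, for `x, y` in the kernel. -/
theorem point_aux (hI : IsLocallyAdmissible F I) (hB : InVariety F I B) (h2 : (2 : K) ≠ 0)
    (leib : ∀ a b c : B, br a (circ b c) = circ (br a b) c + circ b (br a c))
    (φ : B →ₗ[K] K) (hφ : ∀ a b : B, φ (circ a b) = φ a * φ b) (x y : B)
    (hx : φ x = 0) (hy : φ y = 0) : φ (br x y) = 0 := by
  by_contra hγ
  set γ := φ (br x y) with hγd
  let S := sqAlg F h2 leib φ hφ
  have hS : InVariety F I S := hB.of_injective (NonUnitalSubalgebraClass.subtype S)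
    Subtype.val_injective
  let h : S := ⟨circ x y, circ_mem_sq φ hx hy⟩
  let e : S := ⟨circ x x, circ_mem_sq φ hx hx⟩
  obtain ⟨k, hk⟩ := exists_iter_mem (cube (F := F) h2 leib φ hφ) (cube_ideal h2 leib φ hφ) hI hS
    (by
      intro a b c d
      exact jet_circ_sq leib φ hφ a.2 b.2 c d) h e
  have hxx : φ (br x x) = 0 := by rw [br_self, map_zero]
  have hyy : φ (br y y) = 0 := by rw [br_self, map_zero]
  have hyx : φ (br y x) = - γ := by rw [br_skew, map_neg]
  have key : ∀ j : ℕ, ∃ κ : K, κ ≠ 0 ∧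
      ∀ b c : B, jet φ ((iter h e j : S) : B) b c = κ * φ (br b x) * φ (br c x) := by
    intro j
    induction j with
    | zero =>
      refine ⟨2, h2, ?_⟩
      intro b c
      change jet φ (circ x x) b c = _
      rw [jet_circ leib φ hφ, hx]
      ring
    | succ j ih =>
      obtain ⟨κ, hκ, hj⟩ := ih
      refine ⟨-γ * κ, mul_ne_zero (neg_ne_zero.mpr hγ) hκ, ?_⟩
      intro b c
      set E : S := iter h e j with hE
      change jet φ (circ x y * (E : B)) b c = _
      have hEm : (E : B) ∈ sq φ := E.2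
      have h1 : ∀ b n : B, φ (br b (br (E : B) n)) = - jet φ (E : B) b n := by
        intro b n
        rw [br_skew (E : B) n]
        rw [br_neg_right, map_neg, jet]
      have h0 : ∀ n : B, φ (br (E : B) n) = 0 := by
        intro n
        rw [br_skew, map_neg, br_sq leib φ hφ hEm, neg_zero]
      have hneg : ∀ w : B, jet φ (-w) b c = - jet φ w b c := by
        intro w
        have : -w = (-1 : K) • w := by simp
        rw [this, jet_smul]; ring
      rw [half_mul h2, jet_smul, jet_add, jet_circ_sq leib φ hφ (circ_mem_sq φ hx hy) hEm,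
        br_skew, leib, hneg, jet_add, jet_circ leib φ hφ, jet_circ leib φ hφ, hx, hy,
        h1, h1, h1, h1, h0, h0, hj, hj, hj, hj, hxx, hyx]
      field_simp
      ring
  obtain ⟨κ, hκ, hj⟩ := key k
  have h3 : jet φ ((iter h e k : S) : B) y y = 0 := hk y y
  rw [hj, hyx] at h3
  have : κ * -γ * -γ ≠ 0 := mul_ne_zero (mul_ne_zero hκ (neg_ne_zero.mpr hγ)) (neg_ne_zero.mpr hγ)
  exact this h3

/-- A point of a Kokoris algebra of a locally admissible variety kills all commutators. -/
theorem point_thm (hI : IsLocallyAdmissible F I) (hB : InVariety F I B) (h2 : (2 : K) ≠ 0)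
    (leib : ∀ a b c : B, br a (circ b c) = circ (br a b) c + circ b (br a c))
    (φ : B →ₗ[K] K) (hφ : ∀ a b : B, φ (circ a b) = φ a * φ b) (x y : B) : φ (br x y) = 0 := by
  by_cases h0 : φ = 0
  · rw [h0]; rfl
  have hex : ∃ e : B, φ e = 1 := by
    by_contra hne
    apply h0
    ext a
    by_contra ha
    simp only [LinearMap.zero_apply] at ha
    exact hne ⟨(φ a)⁻¹ • a, by rw [map_smul, smul_eq_mul, inv_mul_cancel₀ ha]⟩
  obtain ⟨e, he⟩ := hex
  have hN := point_aux hI hB h2 leib φ hφ
  have heN : ∀ n : B, φ n = 0 → φ (br e n) = 0 := by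
    intro n hn
    have h1 := hN (circ e e - e) n (by rw [map_sub, hφ, he]; ring) hn
    have h3 : br (circ e e - e) n = - br n (circ e e) + br n e := by
      simp only [br, mul_sub, sub_mul]; abel
    rw [h3, leib, map_add, map_neg, map_add, hφ, hφ, he] at h1
    have h4 : φ (br e n) = - φ (br n e) := by rw [br_skew, map_neg]
    rw [h4]
    linear_combination h1
  have hx : φ (x - φ x • e) = 0 := by rw [map_sub, map_smul, he]; simp
  have hy : φ (y - φ y • e) = 0 := by rw [map_sub, map_smul, he]; simp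
  have h1 := hN _ _ hx hy
  have h3 := heN _ hx
  have h4 := heN _ hy
  have h5 : br x y = br (x - φ x • e) (y - φ y • e) + φ x • br e (y - φ y • e)
      - φ y • br e (x - φ x • e) := by
    simp only [br, mul_sub, sub_mul, smul_sub, smul_mul_assoc, mul_smul_comm]
    rw [smul_comm (φ x) (φ y)]
    abel
  rw [h5, map_sub, map_add, map_smul, map_smul, h1, h3, h4]
  simp

end PointThm

end Pool.Agent.Helper9.Kokoris
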